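import Mathlib
import Pool.Agent.Work.MP_0f1f76_lc.Fast.Model

/-!
# The class gadget (toric form): basic definitions

`D = 2^b`.  Blocks `i : Fin M` with two label coordinates `ω : Bool` each.  Exponent vectors are
functions `Fin M → Bool → ℕ`.
-/

namespace Pool.Agent.OMV.Toric

open Finset

/-- The table polynomial: the coefficient of `T^(D-1)` in `∏ (T + x j)`. -/
noncomputable def eD {R : Type*} [CommRing R] {m : ℕ} (D : ℕ) (x : Fin m → R) : R :=
  (∏ j, (Polynomial.X + Polynomial.C (x j)) : Polynomial R).coeff (D - 1)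

/-- One block of a row: residues `ρ₀, ρ₁ < D`, levels `k₀ < 2h` and `j < h`. -/
abbrev Row1 (D h : ℕ) := (Fin D × Fin D) × (Fin (2 * h) × Fin h)

/-- A row. -/
abbrev Row (D h M : ℕ) := Fin M → Row1 D h

/-- The two exponents of one block of a row: `D (k₀+1) + ρ₀` and `D (k₁+1) + ρ₁` with
`k₁ = 2 j + ((k₀+1) mod 2)`, so that `k₀ + k₁` is odd. -/
def val1 {D h : ℕ} (τ : Row1 D h) : Bool → ℕ
  | false => D * ((τ.2.1 : ℕ) + 1) + τ.1.1
  | true => D * (2 * (τ.2.2 : ℕ) + ((τ.2.1 : ℕ) + 1) % 2 + 1) + τ.1.2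

/-- The exponent vector of a row. -/
def rowVal {D h M : ℕ} (τ : Row D h M) (i : Fin M) (ω : Bool) : ℕ := val1 (τ i) ω

/-- The exponent vector of the column with signs `σ` and bits `β`: it has the entry `β i` at the
coordinate `(i, σ i)`. -/
def uvec {M : ℕ} (σ β : Fin M → Bool) (i : Fin M) (ω : Bool) : ℕ :=
  if β i = true ∧ σ i = ω then 1 else 0

/-- The clean blocks of a pair (row, bits). -/
def cleanSet {D h M : ℕ} (τ : Row D h M) (β : Fin M → Bool) : Finset (Fin M) :=
  univ.filter (fun i => β i = true ∧ 16 * ((τ i).1.1 : ℕ) < D ∧ 16 * ((τ i).1.2 : ℕ) < D)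

/-- Two sign vectors are well separated on `I`. -/
def Sep {M : ℕ} (I : Finset (Fin M)) (x y : Fin M → Bool) : Prop :=
  (I.filter (fun i => x i = y i)).card < 3 * (I.filter (fun i => x i ≠ y i)).card

/-- A pair (row, bits) is good for the sign words `σ`. -/
def GoodPair {D h M C : ℕ} (σ : Fin C → Fin M → Bool) (τ : Row D h M) (β : Fin M → Bool) : Prop :=
  ∀ c c', c ≠ c' → Sep (cleanSet τ β) (σ c) (σ c')

end Pool.Agent.OMV.Toric
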