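import Pool.Agent.Work.MP_0f1f76_lc.Toric.Gadget
import Pool.Agent.Work.MP_0f1f76_lc.Fast.Conv

/-!
# The class gadget: the field gadget and the XOR gadget
-/

namespace Pool.Agent.OMV.Toric

open Finset

theorem toric_gadget {F : Type*} [Field F] [Fintype F] [CharP F 2] {b h M s C : ℕ}
    (hs : 0 < s) (a : Fin C → Fin (2 * 2 ^ b - 1) → Fin s)
    (hA : ∀ c c', c ≠ c' → 4 * (univ.filter (fun j => a c j = a c' j)).card ≤ 2 ^ b)
    (σ : Fin C → Fin M → Bool) (hq : 2 ^ b * (2 * h + 2) ≤ Fintype.card F) :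
    ∃ (A : CellT (2 ^ b) h σ → (Col C M → F) →ₗ[F] (Adr b s → F))
      (H : (CellT (2 ^ b) h σ → F) →ₗ[F] (Row (2 ^ b) h M → F)),
      ∀ μ : Row (2 ^ b) h M → Col C M → F, ∃ T : CellT (2 ^ b) h σ → (Adr b s → F) → F,
        ∀ x : Col C M → F,
          H (fun c => T c (A c x)) = fun ρ => ∑ l, μ ρ l * x l ^ 2 ^ b := by
  classical
  obtain ⟨θ⟩ : Nonempty (Fin (2 ^ b * (2 * h + 2)) ↪ F) := by
    apply Function.Embedding.nonempty_of_card_le
    simpa using hq
  obtain ⟨d, hd⟩ := exists_dual θ θ.injective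
  have hb1 : 1 ≤ 2 ^ b := Nat.one_le_two_pow
  let k0 : Adr b s := (⟨0, by omega⟩, ⟨0, hs⟩)
  let A : CellT (2 ^ b) h σ → (Col C M → F) →ₗ[F] (Adr b s → F) := fun c =>
    Sum.elim
      (fun v =>
        { toFun := fun x p => adr θ a σ v x p
          map_add' := by
            intro x y
            funext p
            simp only [adr, Pi.add_apply, ← sum_add_distrib]
            refine sum_congr rfl (fun l _ => ?_)
            split_ifs <;> ring
          map_smul' := by
            intro r x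
            funext p
            simp only [adr, Pi.smul_apply, smul_eq_mul, RingHom.id_apply, mul_sum]
            refine sum_congr rfl (fun l _ => ?_)
            split_ifs <;> ring })
      (fun p =>
        { toFun := fun x _ => x p.1.2
          map_add' := by intro x y; rfl
          map_smul' := by intro r x; rfl }) c
  let H : (CellT (2 ^ b) h σ → F) →ₗ[F] (Row (2 ^ b) h M → F) :=
    { toFun := fun y ρ => ∑ v, dec d ρ v * y (Sum.inl v) +
        ∑ p : Bad (2 ^ b) h σ, if p.1.1 = ρ then y (Sum.inr p) else 0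
      map_add' := by
        intro y z
        funext ρ
        simp only [Pi.add_apply, mul_add, sum_add_distrib]
        have : ∀ p : Bad (2 ^ b) h σ, (if p.1.1 = ρ then y (Sum.inr p) + z (Sum.inr p) else 0) =
            (if p.1.1 = ρ then y (Sum.inr p) else 0) + (if p.1.1 = ρ then z (Sum.inr p) else 0) := by
          intro p
          split_ifs <;> simp
        rw [sum_congr rfl (fun p _ => this p), sum_add_distrib]
        ring
      map_smul' := by
        intro r y
        funext ρ
        simp only [Pi.smul_apply, smul_eq_mul, RingHom.id_apply, mul_add, mul_sum]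
        congr 1
        · refine sum_congr rfl (fun v _ => by ring)
        · refine sum_congr rfl (fun p _ => ?_)
          split_ifs <;> simp }
  refine ⟨A, H, fun μ => ?_⟩
  let T : CellT (2 ^ b) h σ → (Adr b s → F) → F := fun c w =>
    Sum.elim
      (fun v => ∑ p ∈ (univ : Finset (Row (2 ^ b) h M × Col C M)).filter
        (fun p => GoodPair σ p.1 p.2.2), μ p.1 p.2 * (mon θ v (kap p.1 (σ p.2.1) p.2.2) *
          eD (2 ^ b) (fun j => w (j, a p.2.1 j))))
      (fun p => μ p.1.1 p.1.2 * w k0 ^ 2 ^ b) c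
  refine ⟨T, fun x => ?_⟩
  funext ρ
  change ∑ v, dec d ρ v * (∑ p ∈ (univ : Finset (Row (2 ^ b) h M × Col C M)).filter
        (fun p => GoodPair σ p.1 p.2.2), μ p.1 p.2 * (mon θ v (kap p.1 (σ p.2.1) p.2.2) *
          eD (2 ^ b) (fun j => adr θ a σ v x (j, a p.2.1 j)))) +
      ∑ p : Bad (2 ^ b) h σ, (if p.1.1 = ρ then μ p.1.1 p.1.2 * x p.1.2 ^ 2 ^ b else 0) = _
  have h1 : ∑ v, dec d ρ v * (∑ p ∈ (univ : Finset (Row (2 ^ b) h M × Col C M)).filter
        (fun p => GoodPair σ p.1 p.2.2), μ p.1 p.2 * (mon θ v (kap p.1 (σ p.2.1) p.2.2) *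
          eD (2 ^ b) (fun j => adr θ a σ v x (j, a p.2.1 j)))) =
      ∑ p ∈ (univ : Finset (Row (2 ^ b) h M × Col C M)).filter
        (fun p => GoodPair σ p.1 p.2.2),
        (if p.1 = ρ then μ p.1 p.2 * x p.2 ^ 2 ^ b else 0) := by
    have h2 : ∀ v, dec d ρ v * (∑ p ∈ (univ : Finset (Row (2 ^ b) h M × Col C M)).filter
        (fun p => GoodPair σ p.1 p.2.2), μ p.1 p.2 * (mon θ v (kap p.1 (σ p.2.1) p.2.2) *
          eD (2 ^ b) (fun j => adr θ a σ v x (j, a p.2.1 j)))) =
        ∑ p ∈ (univ : Finset (Row (2 ^ b) h M × Col C M)).filter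
        (fun p => GoodPair σ p.1 p.2.2), μ p.1 p.2 * (dec d ρ v *
          (mon θ v (kap p.1 (σ p.2.1) p.2.2) *
            eD (2 ^ b) (fun j => adr θ a σ v x (j, a p.2.1 j)))) := by
      intro v
      rw [mul_sum]
      refine sum_congr rfl (fun p _ => by ring)
    rw [sum_congr rfl (fun v _ => h2 v), sum_comm]
    refine sum_congr rfl (fun p hp => ?_)
    rw [mem_filter] at hp
    rw [← mul_sum, key θ d a σ hd hA p.1 ρ p.2 hp.2 x]
    split_ifs <;> simp
  have h3 : ∑ p : Bad (2 ^ b) h σ, (if p.1.1 = ρ then μ p.1.1 p.1.2 * x p.1.2 ^ 2 ^ b else 0) =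
      ∑ p ∈ (univ : Finset (Row (2 ^ b) h M × Col C M)).filter
        (fun p => ¬ GoodPair σ p.1 p.2.2),
        (if p.1 = ρ then μ p.1 p.2 * x p.2 ^ 2 ^ b else 0) := by
    symm
    exact sum_subtype _ (fun p => by simp) _
  rw [h1, h3, sum_filter_add_sum_filter_not, Fintype.sum_prod_type]
  simp only
  rw [sum_eq_single ρ]
  · simp
  · intro τ _ hτ
    apply sum_eq_zero
    intro l _
    rw [if_neg hτ]
  · intro hρ
    exact absurd (mem_univ ρ) hρ

theorem xorGadget_of_types {F : Type*} [Field F] [Fintype F] [CharP F 2]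
    {V R N K : Type*} [Fintype V] [Fintype R] [Fintype N] [Fintype K] {b e : ℕ}
    (he : Fintype.card F = 2 ^ e)
    (A : V → (N → F) →ₗ[F] (K → F)) (H : (V → F) →ₗ[F] (R → F))
    (h : ∀ μ : R → N → F, ∃ T : V → (K → F) → F,
          ∀ x : N → F, H (fun c => T c (A c x)) = fun ρ => ∑ l, μ ρ l * x l ^ 2 ^ b) :
    Nonempty (XorGadget (Fintype.card R) (Fintype.card N * e) (Fintype.card K * e)
      (Fintype.card V * e)) := by
  classical
  let eV := Fintype.equivFin V
  let eR := Fintype.equivFin R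
  let eN := Fintype.equivFin N
  let eK := Fintype.equivFin K
  let A' : Fin (Fintype.card V) → (Fin (Fintype.card N) → F) →ₗ[F] (Fin (Fintype.card K) → F) :=
    fun c => (LinearMap.funLeft F F eK.symm).comp ((A (eV.symm c)).comp (LinearMap.funLeft F F eN))
  let H' : (Fin (Fintype.card V) → F) →ₗ[F] (Fin (Fintype.card R) → F) :=
    (LinearMap.funLeft F F eR.symm).comp (H.comp (LinearMap.funLeft F F eV))
  refine xorGadget_of_field he A' H' (b := b) (fun μ => ?_)
  obtain ⟨T, hT⟩ := h (fun ρ l => μ (eR ρ) (eN l))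
  refine ⟨fun c w => T (eV.symm c) (fun k => w (eK k)), fun x => ?_⟩
  funext ρ
  have h1 := congrFun (hT (fun l => x (eN l))) (eR.symm ρ)
  have h2 : H' (fun c => T (eV.symm c) (fun k => (A' c x) (eK k))) ρ =
      H (fun c => T c (A c (fun l => x (eN l)))) (eR.symm ρ) := by
    have h4 : (LinearMap.funLeft F F eV) (fun c => T (eV.symm c) (fun k => (A' c x) (eK k))) =
        fun c => T c (A c (fun l => x (eN l))) := by
      funext c
      simp only [LinearMap.funLeft_apply, A', LinearMap.comp_apply, Equiv.symm_apply_apply]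
      rfl
    change H ((LinearMap.funLeft F F eV) (fun c => T (eV.symm c) (fun k => (A' c x) (eK k))))
      (eR.symm ρ) = _
    rw [h4]
  rw [h2, h1]
  simp only [Equiv.apply_symm_apply]
  exact Equiv.sum_comp eN (fun l => μ ρ l * x l ^ 2 ^ b)

end Pool.Agent.OMV.Toric
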