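import Pool.Agent.Work.MP_0f1f76_lc.Toric.Basic

/-!
# Blocking: at a clean block no mixed set of `D` columns can change every parity
-/

namespace Pool.Agent.OMV.Toric

open Finset

namespace BlockAux

/-- the sign of a bit -/
def sg (b : Bool) : ℤ := if b then 1 else -1

theorem sg_mul (a b : Bool) : sg a * sg b = if a = b then 1 else -1 := by
  cases a <;> cases b <;> simp [sg]

theorem sum_sg_mul {M : ℕ} (I : Finset (Fin M)) (x y : Fin M → Bool) :
    ∑ i ∈ I, sg (x i) * sg (y i) =
      ((I.filter (fun i => x i = y i)).card : ℤ) - (I.filter (fun i => x i ≠ y i)).card := by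
  have h : ∀ i ∈ I, sg (x i) * sg (y i) =
      (if x i = y i then (1 : ℤ) else 0) - (if x i ≠ y i then (1 : ℤ) else 0) := by
    intro i _
    rw [sg_mul]
    by_cases h : x i = y i <;> simp [h]
  rw [sum_congr rfl h, sum_sub_distrib]
  simp only [Finset.card_filter]
  push_cast
  rfl

theorem corr_le {M : ℕ} (I : Finset (Fin M)) (x y : Fin M → Bool) :
    ∑ i ∈ I, sg (x i) * sg (y i) ≤ I.card := by
  rw [sum_sg_mul]
  have h1 : (I.filter (fun i => x i = y i)).card ≤ I.card := card_filter_le _ _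
  have h2 : (0 : ℤ) ≤ ((I.filter (fun i => x i ≠ y i)).card : ℤ) := by positivity
  have h3 : ((I.filter (fun i => x i = y i)).card : ℤ) ≤ I.card := by exact_mod_cast h1
  linarith

theorem corr_sep {M : ℕ} (I : Finset (Fin M)) (x y : Fin M → Bool) (h : Sep I x y) :
    2 * ∑ i ∈ I, sg (x i) * sg (y i) ≤ I.card := by
  rw [sum_sg_mul]
  have h0 := card_filter_add_card_filter_not (s := I) (fun i => x i = y i)
  unfold Sep at h
  have h0' : ((I.filter (fun i => x i = y i)).card : ℤ) +
      ((I.filter (fun i => x i ≠ y i)).card : ℤ) = I.card := by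
    exact_mod_cast h0
  have h1 : ((I.filter (fun i => x i = y i)).card : ℤ) <
      3 * ((I.filter (fun i => x i ≠ y i)).card : ℤ) := by exact_mod_cast h
  linarith

end BlockAux

open BlockAux

theorem blocking {ι : Type*} [DecidableEq ι] {M C D : ℕ} (hD : 0 < D) (J : Finset ι)
    (hJ : J.card = D) (cl : ι → Fin C) (β : ι → Fin M → Bool) (σ : Fin C → Fin M → Bool)
    (I : Finset (Fin M))
    (hagr : ∀ c, 4 * (J.filter (fun j => cl j = c)).card ≤ D)
    (hsep : ∀ c c', c ≠ c' → Sep I (σ c) (σ c'))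
    (κ : Fin M → Bool → ℕ) (hclean : ∀ i ∈ I, ∀ ω, 16 * (κ i ω % D) < D)
    (hpar : ∀ i ∈ I, (κ i false / D + κ i true / D) % 2 = 0) :
    ∃ i ∈ I, ((κ i false + ∑ j ∈ J, uvec (σ (cl j)) (β j) i false) / D +
      (κ i true + ∑ j ∈ J, uvec (σ (cl j)) (β j) i true) / D) % 2 = 0 := by
  by_contra hcon
  push Not at hcon
  -- two different classes
  obtain ⟨j₀, hj₀⟩ : J.Nonempty := by
    rw [← card_pos]; omega
  obtain ⟨j₁, hj₁, hne⟩ : ∃ j₁ ∈ J, cl j₁ ≠ cl j₀ := by
    by_contra hall
    push Not at hall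
    have : J.filter (fun j => cl j = cl j₀) = J := filter_true_of_mem hall
    have h := hagr (cl j₀)
    rw [this, hJ] at h
    omega
  have hI : 0 < I.card := by
    have h := hsep _ _ hne
    unfold Sep at h
    have h2 : 0 < (I.filter (fun i => σ (cl j₁) i ≠ σ (cl j₀) i)).card := by omega
    exact lt_of_lt_of_le h2 (card_filter_le _ _)
  -- the numbers of signs
  have hX : ∀ i ω, ∑ j ∈ J, uvec (σ (cl j)) (β j) i ω ≤
      (J.filter (fun j => σ (cl j) i = ω)).card := by
    intro i ω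
    rw [card_filter]
    apply sum_le_sum
    intro j _
    unfold uvec
    by_cases h1 : σ (cl j) i = ω
    · simp only [h1, and_true, if_true]
      split_ifs <;> omega
    · simp [h1]
  have hXs : ∀ i, (J.filter (fun j => σ (cl j) i = false)).card +
      (J.filter (fun j => σ (cl j) i = true)).card = D := by
    intro i
    rw [← hJ, ← card_filter_add_card_filter_not (s := J) (fun j => σ (cl j) i = false)]
    congr 2
    apply filter_congr
    intro j _
    simp
  have hSum : ∀ i, ∑ j ∈ J, sg (σ (cl j) i) =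
      ((J.filter (fun j => σ (cl j) i = true)).card : ℤ) -
        (J.filter (fun j => σ (cl j) i = false)).card := by
    intro i
    have h : ∀ j ∈ J, sg (σ (cl j) i) =
        (if σ (cl j) i = true then (1 : ℤ) else 0) - (if σ (cl j) i = false then (1 : ℤ) else 0) := by
      intro j _
      cases h : σ (cl j) i <;> simp [sg]
    rw [sum_congr rfl h, sum_sub_distrib]
    simp only [Finset.card_filter]
    push_cast
    rfl
  have hbig : ∀ i ∈ I, ∃ ω, 15 * D < 16 * (J.filter (fun j => σ (cl j) i = ω)).card := by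
    intro i hi
    by_contra hc
    push Not at hc
    have key : ∀ ω, (κ i ω + ∑ j ∈ J, uvec (σ (cl j)) (β j) i ω) / D = κ i ω / D := by
      intro ω
      have h1 := hclean i hi ω
      have h2 := hc ω
      have h3 := hX i ω
      have h4 : κ i ω = D * (κ i ω / D) + κ i ω % D := (Nat.div_add_mod _ _).symm
      set q := κ i ω / D with hq
      set r := κ i ω % D with hr
      set x := ∑ j ∈ J, uvec (σ (cl j)) (β j) i ω with hx
      have h5 : r + x < D := by omega
      rw [h4, add_assoc, Nat.mul_add_div hD, Nat.div_eq_of_lt h5, add_zero]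
    have := hcon i hi
    rw [key false, key true] at this
    exact this (hpar i hi)
  have hsq : ∀ i ∈ I, 49 * (D : ℤ) ^ 2 ≤ 64 * (∑ j ∈ J, sg (σ (cl j) i)) ^ 2 := by
    intro i hi
    rw [hSum i]
    obtain ⟨ω, hω⟩ := hbig i hi
    have hs := hXs i
    set a := (J.filter (fun j => σ (cl j) i = false)).card with ha
    set b := (J.filter (fun j => σ (cl j) i = true)).card with hb
    cases ω
    · rw [← ha] at hω
      have h1 : 7 * (D : ℤ) ≤ 8 * ((a : ℤ) - b) := by omega
      nlinarith [h1, Int.natCast_nonneg D]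
    · rw [← hb] at hω
      have h1 : 7 * (D : ℤ) ≤ 8 * ((b : ℤ) - a) := by omega
      nlinarith [h1, Int.natCast_nonneg D]
  have hlow : (I.card : ℤ) * (49 * (D : ℤ) ^ 2) ≤
      ∑ i ∈ I, 64 * (∑ j ∈ J, sg (σ (cl j) i)) ^ 2 := by
    have := sum_le_sum hsq
    rwa [sum_const, nsmul_eq_mul] at this
  have hexp : ∑ i ∈ I, (∑ j ∈ J, sg (σ (cl j) i)) ^ 2 =
      ∑ j ∈ J, ∑ j' ∈ J, ∑ i ∈ I, sg (σ (cl j) i) * sg (σ (cl j') i) := by
    have : ∀ i ∈ I, (∑ j ∈ J, sg (σ (cl j) i)) ^ 2 =
        ∑ j ∈ J, ∑ j' ∈ J, sg (σ (cl j) i) * sg (σ (cl j') i) := by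
      intro i _
      rw [sq, sum_mul_sum]
    rw [sum_congr rfl this, sum_comm]
    apply sum_congr rfl
    intro j _
    rw [sum_comm]
  have hpair : ∀ j ∈ J, ∀ j' ∈ J, 2 * ∑ i ∈ I, sg (σ (cl j) i) * sg (σ (cl j') i) ≤
      (I.card : ℤ) + (if cl j' = cl j then (I.card : ℤ) else 0) := by
    intro j _ j' _
    by_cases h : cl j' = cl j
    · have := corr_le I (σ (cl j)) (σ (cl j'))
      rw [if_pos h]
      linarith
    · have := corr_sep I (σ (cl j)) (σ (cl j')) (hsep _ _ (fun h' => h h'.symm))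
      rw [if_neg h]
      linarith
  have hrow : ∀ j ∈ J, 4 * (2 * ∑ j' ∈ J, ∑ i ∈ I, sg (σ (cl j) i) * sg (σ (cl j') i)) ≤
      5 * ((I.card : ℤ) * D) := by
    intro j hj
    have h1 := sum_le_sum (hpair j hj)
    rw [← mul_sum, sum_add_distrib, sum_const, nsmul_eq_mul, hJ, ← sum_filter, sum_const,
      nsmul_eq_mul] at h1
    have h2 : (4 * (J.filter (fun j' => cl j' = cl j)).card : ℤ) ≤ D := by
      exact_mod_cast hagr (cl j)
    have h3 : (0 : ℤ) ≤ I.card := by positivity
    nlinarith [mul_le_mul_of_nonneg_right h2 h3]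
  have htot : 4 * (2 * ∑ j ∈ J, ∑ j' ∈ J, ∑ i ∈ I, sg (σ (cl j) i) * sg (σ (cl j') i)) ≤
      5 * ((I.card : ℤ) * D) * D := by
    have h1 := sum_le_sum hrow
    rw [← mul_sum, ← mul_sum, sum_const, nsmul_eq_mul, hJ] at h1
    linarith
  rw [← mul_sum, hexp] at hlow
  have hDp : (0 : ℤ) < (D : ℤ) ^ 2 := by positivity
  have hIp : (0 : ℤ) < (I.card : ℤ) := by exact_mod_cast hI
  nlinarith [mul_pos hIp hDp]

end Pool.Agent.OMV.Toric
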