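import Pool.Agent.Work.MP_0f1f76_lc.Toric.Basic
import Pool.Agent.Work.MP_0f1f76_lc.Fast.Expand

/-!
# The characteristic two identity for the elementary symmetric function of degree `2^b` in
`2·2^b - 1` variables
-/

namespace Pool.Agent.OMV.Toric

open Finset

theorem eD_eq_sum {R : Type*} [CommRing R] (b : ℕ) (x : Fin (2 * 2 ^ b - 1) → R) :
    eD (2 ^ b) x = ∑ J ∈ powersetCard (2 ^ b) univ, ∏ j ∈ J, x j := by
  unfold eD
  have hb : 1 ≤ 2 ^ b := Nat.one_le_two_pow
  have hc : (univ : Finset (Fin (2 * 2 ^ b - 1))).card = 2 * 2 ^ b - 1 := by simp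
  rw [Finset.prod_X_add_C_coeff _ _ (by rw [hc]; omega), hc]
  have : 2 * 2 ^ b - 1 - (2 ^ b - 1) = 2 ^ b := by omega
  rw [this]

theorem eD_shift {F : Type*} [Field F] [CharP F 2] (b : ℕ) (y : F)
    (x : Fin (2 * 2 ^ b - 1) → F) :
    eD (2 ^ b) (fun j => y + x j) = ∑ t ∈ (univ : Finset (Fin (2 * 2 ^ b - 1))).powerset,
      (if t.card = 2 ^ b - 1 then 1 else if t.card = 2 * 2 ^ b - 1 then y ^ 2 ^ b else 0) *
        ∏ i ∈ univ \ t, x i := by
  unfold eD
  have h1 : (∏ j, (Polynomial.X + Polynomial.C (y + x j)) : Polynomial F) =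
      ∏ j, ((Polynomial.C y + Polynomial.X) + Polynomial.C (x j)) := by
    refine prod_congr rfl (fun j _ => ?_)
    rw [Polynomial.C_add]
    ring
  rw [h1, Finset.prod_add, Polynomial.finsetSum_coeff]
  refine sum_congr rfl (fun t _ => ?_)
  have h2 : (∏ i ∈ univ \ t, Polynomial.C (x i) : Polynomial F) =
      Polynomial.C (∏ i ∈ univ \ t, x i) := by
    rw [map_prod]
  rw [h2, prod_const, Polynomial.coeff_mul_C, coeff_add_pow b y t.card]
  have := card_le_univ t
  simpa using this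

theorem eD_add {F : Type*} [Field F] [CharP F 2] (b : ℕ) (y : F)
    (x : Fin (2 * 2 ^ b - 1) → F) :
    eD (2 ^ b) (fun j => y + x j) = y ^ 2 ^ b + eD (2 ^ b) x := by
  have hb : 1 ≤ 2 ^ b := Nat.one_le_two_pow
  have h0 : eD (2 ^ b) x = eD (2 ^ b) (fun j => 0 + x j) := by
    simp
  rw [h0, eD_shift, eD_shift]
  have h1 : ∀ t ∈ (univ : Finset (Fin (2 * 2 ^ b - 1))).powerset,
      (if t.card = 2 ^ b - 1 then 1 else if t.card = 2 * 2 ^ b - 1 then y ^ 2 ^ b else 0) *
        ∏ i ∈ univ \ t, x i =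
      (if t = univ then y ^ 2 ^ b else 0) +
      (if t.card = 2 ^ b - 1 then 1 else if t.card = 2 * 2 ^ b - 1 then (0 : F) ^ 2 ^ b else 0) *
        ∏ i ∈ univ \ t, x i := by
    intro t _
    have hz : (0 : F) ^ 2 ^ b = 0 := zero_pow (by positivity)
    have hc : (univ : Finset (Fin (2 * 2 ^ b - 1))).card = 2 * 2 ^ b - 1 := by simp
    by_cases ht : t = univ
    · subst ht
      rw [if_pos rfl, hc, if_neg (by omega), if_pos rfl, if_neg (by omega), if_pos rfl, hz]
      simp
    · have ht2 : t.card ≠ 2 * 2 ^ b - 1 := by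
        intro h
        apply ht
        rw [← card_eq_iff_eq_univ, h]
        simp
      rw [if_neg ht, if_neg ht2, if_neg ht2, zero_add]
  rw [sum_congr rfl h1, sum_add_distrib, sum_ite_eq', if_pos (by simp)]

end Pool.Agent.OMV.Toric
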