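import Pool.Agent.Work.MP_0f1f76_lc.Toric.Basic

/-!
# Interpolation functionals on a grid
-/

namespace Pool.Agent.OMV.Toric

open Finset

theorem exists_dual {F : Type*} [Field F] {L : ℕ} (θ : Fin L → F)
    (hθ : Function.Injective θ) :
    ∃ d : ℕ → Fin L → F, ∀ n < L, ∀ k < L,
      ∑ x, d n x * θ x ^ k = if k = n then 1 else 0 := by
  classical
  have hdet : IsUnit (Matrix.vandermonde θ).det :=
    isUnit_iff_ne_zero.2 (Matrix.det_vandermonde_ne_zero_iff.2 hθ)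
  refine ⟨fun n x => if h : n < L then (Matrix.vandermonde θ)⁻¹ ⟨n, h⟩ x else 0, ?_⟩
  intro n hn k hk
  have h1 := Matrix.nonsing_inv_mul (Matrix.vandermonde θ) hdet
  have h2 := congrFun (congrFun h1 ⟨n, hn⟩) ⟨k, hk⟩
  rw [Matrix.mul_apply, Matrix.one_apply] at h2
  simp only [Matrix.vandermonde_apply, Fin.mk.injEq] at h2
  simp only [dif_pos hn]
  rw [h2]
  simp only [eq_comm]

theorem decode {F : Type*} [Field F] {L M : ℕ} (θ : Fin L → F) (d : ℕ → Fin L → F)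
    (hd : ∀ n < L, ∀ k < L, ∑ x, d n x * θ x ^ k = if k = n then 1 else 0)
    (κ τ : Fin M → Bool → ℕ) (hκ : ∀ i ω, κ i ω < L) (hτ : ∀ i ω, τ i ω < L) :
    ∑ v : Fin M → Bool → Fin L, (∏ i, ∏ ω, d (τ i ω) (v i ω)) * ∏ i, ∏ ω, θ (v i ω) ^ κ i ω =
      if κ = τ then 1 else 0 := by
  classical
  have h1 : ∀ v : Fin M → Bool → Fin L,
      (∏ i, ∏ ω, d (τ i ω) (v i ω)) * ∏ i, ∏ ω, θ (v i ω) ^ κ i ω =
      ∏ i, ∏ ω, (d (τ i ω) (v i ω) * θ (v i ω) ^ κ i ω) := by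
    intro v
    simp only [prod_mul_distrib]
  rw [sum_congr rfl (fun v _ => h1 v)]
  have h2 : ∑ v : Fin M → Bool → Fin L, ∏ i, ∏ ω, (d (τ i ω) (v i ω) * θ (v i ω) ^ κ i ω) =
      ∏ i, ∑ u : Bool → Fin L, ∏ ω, (d (τ i ω) (u ω) * θ (u ω) ^ κ i ω) := by
    rw [prod_univ_sum, Fintype.piFinset_univ]
  have h3 : ∀ i, ∑ u : Bool → Fin L, ∏ ω, (d (τ i ω) (u ω) * θ (u ω) ^ κ i ω) =
      ∏ ω, ∑ y : Fin L, d (τ i ω) y * θ y ^ κ i ω := by
    intro i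
    rw [prod_univ_sum, Fintype.piFinset_univ]
  rw [h2, prod_congr rfl (fun i _ => h3 i)]
  have h4 : ∀ i ω, ∑ y : Fin L, d (τ i ω) y * θ y ^ κ i ω = if κ i ω = τ i ω then 1 else 0 :=
    fun i ω => hd _ (hτ i ω) _ (hκ i ω)
  simp only [h4]
  by_cases hh : κ = τ
  · subst hh
    simp
  · rw [if_neg hh]
    obtain ⟨i, hi⟩ : ∃ i, κ i ≠ τ i := by
      by_contra hcon
      push Not at hcon
      exact hh (funext hcon)
    obtain ⟨ω, hω⟩ : ∃ ω, κ i ω ≠ τ i ω := by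
      by_contra hcon
      push Not at hcon
      exact hi (funext hcon)
    exact prod_eq_zero (mem_univ i) (prod_eq_zero (mem_univ ω) (if_neg hω))

end Pool.Agent.OMV.Toric
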