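import Pool.Agent.Work.MP_0f1f76_lc.Toric.Rows
import Pool.Agent.Work.MP_0f1f76_lc.Toric.Edid
import Pool.Agent.Work.MP_0f1f76_lc.Toric.Block
import Pool.Agent.Work.MP_0f1f76_lc.Toric.Interp

/-!
# The class gadget over a field of characteristic two
-/

namespace Pool.Agent.OMV.Toric

open Finset

/-- the address space -/
abbrev Adr (b s : ℕ) := Fin (2 * 2 ^ b - 1) × Fin s

/-- the columns -/
abbrev Col (C M : ℕ) := Fin C × (Fin M → Bool)

/-- bad pairs (row, column) -/
abbrev Bad (D h : ℕ) {M C : ℕ} (σ : Fin C → Fin M → Bool) :=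
  {p : Row D h M × Col C M // ¬ GoodPair σ p.1 p.2.2}

/-- the points of the grid -/
abbrev Grid (L M : ℕ) := Fin M → Bool → Fin L

/-- the cells: the points of the grid and one for each bad pair -/
abbrev CellT (D h : ℕ) {M C : ℕ} (σ : Fin C → Fin M → Bool) :=
  (Grid (D * (2 * h + 2)) M) ⊕ Bad D h σ

section Mon

variable {F : Type*} [Field F] {L M : ℕ} (θ : Fin L → F)

/-- monomials on the grid -/
def mon (v : Grid L M) (κ : Fin M → Bool → ℕ) : F := ∏ i, ∏ ω, θ (v i ω) ^ κ i ω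

theorem mon_add (v : Grid L M) (κ κ' : Fin M → Bool → ℕ) :
    mon θ v (fun i ω => κ i ω + κ' i ω) = mon θ v κ * mon θ v κ' := by
  simp only [mon, pow_add, prod_mul_distrib]

theorem mon_sum {ι : Type*} (J : Finset ι) (v : Grid L M) (u : ι → Fin M → Bool → ℕ) :
    ∏ j ∈ J, mon θ v (u j) = mon θ v (fun i ω => ∑ j ∈ J, u j i ω) := by
  simp only [mon]
  rw [prod_comm]
  refine prod_congr rfl (fun i _ => ?_)
  rw [prod_comm]
  refine prod_congr rfl (fun ω _ => ?_)
  rw [prod_pow_eq_pow_sum]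

theorem mon_pow (v : Grid L M) (κ : Fin M → Bool → ℕ) (n : ℕ) :
    mon θ v κ ^ n = mon θ v (fun i ω => n * κ i ω) := by
  simp only [mon, ← prod_pow, ← pow_mul, mul_comm n]

end Mon

section Key

variable {F : Type*} [Field F] [CharP F 2] {b h M s C : ℕ}
  (θ : Fin (2 ^ b * (2 * h + 2)) → F) (d : ℕ → Fin (2 ^ b * (2 * h + 2)) → F)
  (a : Fin C → Fin (2 * 2 ^ b - 1) → Fin s) (σ : Fin C → Fin M → Bool)

/-- the address map of a grid cell -/
def adr (v : Grid (2 ^ b * (2 * h + 2)) M) (x : Col C M → F) (p : Adr b s) : F :=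
  ∑ l : Col C M, if a l.1 p.1 = p.2 then mon θ v (uvec (σ l.1) l.2) * x l else 0

/-- decoding functional of the row `ρ` -/
def dec (ρ : Row (2 ^ b) h M) (v : Grid (2 ^ b * (2 * h + 2)) M) : F :=
  ∏ i, ∏ ω, d (rowVal ρ i ω) (v i ω)

omit [CharP F 2] in
theorem dec_mon (hd : ∀ n < 2 ^ b * (2 * h + 2), ∀ k < 2 ^ b * (2 * h + 2),
      ∑ x, d n x * θ x ^ k = if k = n then 1 else 0)
    (ρ : Row (2 ^ b) h M) (κ : Fin M → Bool → ℕ) (hκ : ∀ i ω, κ i ω < 2 ^ b * (2 * h + 2)) :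
    ∑ v, dec d ρ v * mon θ v κ = if κ = rowVal ρ then 1 else 0 := by
  refine decode θ d hd κ (rowVal ρ) hκ (fun i ω => ?_)
  exact (rowVal_lt ρ i ω).trans_le (Nat.mul_le_mul_left _ (by omega))

theorem kap_lt (τ : Row (2 ^ b) h M) (σ β : Fin M → Bool) (i : Fin M) (ω : Bool) :
    kap τ σ β i ω < 2 ^ b * (2 * h + 1) := by
  have h1 := kap_add τ σ β i ω
  have h2 := rowVal_lt τ i ω
  omega

/-- The pure part. -/
theorem pure_part (hd : ∀ n < 2 ^ b * (2 * h + 2), ∀ k < 2 ^ b * (2 * h + 2),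
      ∑ x, d n x * θ x ^ k = if k = n then 1 else 0)
    (τ ρ : Row (2 ^ b) h M) (l : Col C M) (x : Col C M → F) :
    ∑ v, dec d ρ v * (mon θ v (kap τ (σ l.1) l.2) *
      (∑ β', mon θ v (uvec (σ l.1) β') * x (l.1, β')) ^ 2 ^ b) =
      if τ = ρ then x l ^ 2 ^ b else 0 := by
  classical
  have hexp : ExpChar F 2 := ExpChar.prime Nat.prime_two
  have hD : 0 < 2 ^ b := by positivity
  have h1 : ∀ v : Grid (2 ^ b * (2 * h + 2)) M,
      dec d ρ v * (mon θ v (kap τ (σ l.1) l.2) *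
        (∑ β', mon θ v (uvec (σ l.1) β') * x (l.1, β')) ^ 2 ^ b) =
      ∑ β', x (l.1, β') ^ 2 ^ b * (dec d ρ v * mon θ v
        (fun i ω => kap τ (σ l.1) l.2 i ω + 2 ^ b * uvec (σ l.1) β' i ω)) := by
    intro v
    rw [sum_pow_char_pow 2 b, mul_sum, mul_sum]
    refine sum_congr rfl (fun β' _ => ?_)
    rw [mul_pow, mon_pow, mon_add]
    ring
  rw [sum_congr rfl (fun v _ => h1 v), sum_comm]
  have h2 : ∀ β' : Fin M → Bool, ∑ v, x (l.1, β') ^ 2 ^ b * (dec d ρ v * mon θ v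
        (fun i ω => kap τ (σ l.1) l.2 i ω + 2 ^ b * uvec (σ l.1) β' i ω)) =
      if β' = l.2 ∧ ρ = τ then x (l.1, β') ^ 2 ^ b else 0 := by
    intro β'
    rw [← mul_sum, dec_mon θ d hd ρ _ ?_]
    · by_cases hh : (fun i ω => kap τ (σ l.1) l.2 i ω + 2 ^ b * uvec (σ l.1) β' i ω) = rowVal ρ
      · rw [if_pos hh, if_pos (pure_shift hD τ ρ (σ l.1) l.2 β' hh), mul_one]
      · rw [if_neg hh, if_neg, mul_zero]
        rintro ⟨rfl, rfl⟩
        apply hh
        funext i ω
        exact kap_add ρ (σ l.1) l.2 i ω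
    · intro i ω
      have h3 := kap_lt τ (σ l.1) l.2 i ω
      have h4 : 2 ^ b * uvec (σ l.1) β' i ω ≤ 2 ^ b * 1 :=
        Nat.mul_le_mul_left _ (uvec_le_one _ _ _ _)
      have h5 : 2 ^ b * (2 * h + 2) = 2 ^ b * (2 * h + 1) + 2 ^ b * 1 := by ring
      omega
  rw [sum_congr rfl (fun β' _ => h2 β')]
  by_cases hτ : τ = ρ
  · subst hτ
    simp
  · rw [if_neg hτ]
    apply sum_eq_zero
    intro β' _
    rw [if_neg]
    rintro ⟨_, rfl⟩
    exact hτ rfl

/-- The contribution of the other classes to the address coordinates seen by class `c`. -/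
def rest (c : Fin C) (v : Grid (2 ^ b * (2 * h + 2)) M) (x : Col C M → F)
    (j : Fin (2 * 2 ^ b - 1)) : F :=
  ∑ l ∈ (univ : Finset (Col C M)).filter (fun l => l.1 ≠ c ∧ a l.1 j = a c j),
    mon θ v (uvec (σ l.1) l.2) * x l

omit [CharP F 2] in
theorem adr_eq (c : Fin C) (v : Grid (2 ^ b * (2 * h + 2)) M) (x : Col C M → F)
    (j : Fin (2 * 2 ^ b - 1)) :
    adr θ a σ v x (j, a c j) =
      (∑ β', mon θ v (uvec (σ c) β') * x (c, β')) + rest θ a σ c v x j := by
  classical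
  unfold adr rest
  rw [← sum_filter]
  have h1 : (univ : Finset (Col C M)).filter (fun l => a l.1 j = a c j) =
      (univ.filter (fun l : Col C M => l.1 = c)) ∪
        (univ.filter (fun l : Col C M => l.1 ≠ c ∧ a l.1 j = a c j)) := by
    ext l
    simp only [mem_filter, mem_univ, true_and, mem_union]
    by_cases hl : l.1 = c
    · simp [hl]
    · simp [hl]
  have h2 : Disjoint (univ.filter (fun l : Col C M => l.1 = c))
      (univ.filter (fun l : Col C M => l.1 ≠ c ∧ a l.1 j = a c j)) := by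
    rw [disjoint_left]
    intro l hl hl'
    rw [mem_filter] at hl hl'
    exact hl'.2.1 hl.2
  rw [h1, sum_union h2]
  congr 1
  rw [sum_filter, Fintype.sum_prod_type]
  simp only
  rw [sum_eq_single c]
  · refine sum_congr rfl (fun β' _ => ?_)
    rw [if_pos rfl]
  · intro c' _ hc'
    apply sum_eq_zero
    intro β' _
    rw [if_neg hc']
  · intro hc
    exact absurd (mem_univ c) hc

/-- The mixed part vanishes. -/
theorem mixed_part (hd : ∀ n < 2 ^ b * (2 * h + 2), ∀ k < 2 ^ b * (2 * h + 2),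
      ∑ x, d n x * θ x ^ k = if k = n then 1 else 0)
    (hA : ∀ c c', c ≠ c' → 4 * (univ.filter (fun j => a c j = a c' j)).card ≤ 2 ^ b)
    (τ ρ : Row (2 ^ b) h M) (l : Col C M) (hgood : GoodPair σ τ l.2) (x : Col C M → F) :
    ∑ v, dec d ρ v * (mon θ v (kap τ (σ l.1) l.2) *
      eD (2 ^ b) (rest θ a σ l.1 v x)) = 0 := by
  classical
  have hD : 0 < 2 ^ b := by positivity
  have h1 : ∀ v : Grid (2 ^ b * (2 * h + 2)) M,
      dec d ρ v * (mon θ v (kap τ (σ l.1) l.2) * eD (2 ^ b) (rest θ a σ l.1 v x)) =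
      ∑ J ∈ powersetCard (2 ^ b) (univ : Finset (Fin (2 * 2 ^ b - 1))),
        ∑ φ ∈ Fintype.piFinset (fun j : J => (univ : Finset (Col C M)).filter
            (fun l' => l'.1 ≠ l.1 ∧ a l'.1 j = a l.1 j)),
          (∏ j, x (φ j)) * (dec d ρ v * mon θ v (fun i ω => kap τ (σ l.1) l.2 i ω +
            ∑ j : J, uvec (σ (φ j).1) (φ j).2 i ω)) := by
    intro v
    rw [eD_eq_sum, mul_sum, mul_sum]
    refine sum_congr rfl (fun J _ => ?_)
    rw [← prod_coe_sort J]
    simp only [rest]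
    rw [prod_univ_sum, mul_sum, mul_sum]
    refine sum_congr rfl (fun φ _ => ?_)
    rw [prod_mul_distrib, mon_sum, mon_add]
    ring
  rw [sum_congr rfl (fun v _ => h1 v), sum_comm]
  apply sum_eq_zero
  intro J hJ
  rw [sum_comm]
  apply sum_eq_zero
  intro φ hφ
  rw [← mul_sum, dec_mon θ d hd ρ, if_neg, mul_zero]
  · intro hh
    rw [Fintype.mem_piFinset] at hφ
    have hJc : J.card = 2 ^ b := (mem_powersetCard.1 hJ).2
    have hagr : ∀ c, 4 * ((univ : Finset J).filter (fun j => (φ j).1 = c)).card ≤ 2 ^ b := by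
      intro c
      by_cases hc : c = l.1
      · rw [filter_eq_empty_iff.2]
        · simp
        · intro j _ hj
          have := hφ j
          rw [mem_filter] at this
          exact this.2.1 (hj.trans hc)
      · refine le_trans (Nat.mul_le_mul_left _ ?_) (hA c l.1 hc)
        refine card_le_card_of_injOn (fun j => (j : Fin (2 * 2 ^ b - 1))) ?_ ?_
        · intro j hj
          rw [mem_coe, mem_filter] at hj
          have := hφ j
          rw [mem_filter] at this
          rw [mem_coe, mem_filter]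
          refine ⟨mem_univ _, ?_⟩
          rw [← hj.2]
          exact this.2.2
        · intro j _ j' _ hjj
          exact Subtype.ext hjj
    obtain ⟨i, _, hi⟩ := blocking (ι := J) hD univ (by rw [card_univ, Fintype.card_coe, hJc])
      (fun j => (φ j).1) (fun j => (φ j).2) σ (cleanSet τ l.2) hagr hgood
      (kap τ (σ l.1) l.2) (fun i hi => (kap_clean hD τ (σ l.1) l.2 i hi).1)
      (fun i hi => (kap_clean hD τ (σ l.1) l.2 i hi).2)
    have p1 := rowVal_parity ρ i
    rw [← hh] at p1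
    simp only at p1 hi
    rw [p1] at hi
    exact absurd hi (by norm_num)
  · intro i ω
    have h3 := kap_lt τ (σ l.1) l.2 i ω
    have hJc : J.card = 2 ^ b := (mem_powersetCard.1 hJ).2
    have h4 : ∑ j : J, uvec (σ (φ j).1) (φ j).2 i ω ≤ 2 ^ b * 1 := by
      calc ∑ j : J, uvec (σ (φ j).1) (φ j).2 i ω ≤ ∑ j : J, 1 :=
            sum_le_sum (fun j _ => uvec_le_one _ _ _ _)
        _ = 2 ^ b * 1 := by
            rw [sum_const, card_univ, Fintype.card_coe, hJc, smul_eq_mul]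
    have h5 : 2 ^ b * (2 * h + 2) = 2 ^ b * (2 * h + 1) + 2 ^ b * 1 := by ring
    omega

/-- The key identity. -/
theorem key (hd : ∀ n < 2 ^ b * (2 * h + 2), ∀ k < 2 ^ b * (2 * h + 2),
      ∑ x, d n x * θ x ^ k = if k = n then 1 else 0)
    (hA : ∀ c c', c ≠ c' → 4 * (univ.filter (fun j => a c j = a c' j)).card ≤ 2 ^ b)
    (τ ρ : Row (2 ^ b) h M) (l : Col C M) (hgood : GoodPair σ τ l.2) (x : Col C M → F) :
    ∑ v, dec d ρ v * (mon θ v (kap τ (σ l.1) l.2) *
      eD (2 ^ b) (fun j => adr θ a σ v x (j, a l.1 j))) =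
      if τ = ρ then x l ^ 2 ^ b else 0 := by
  have h1 : ∀ v : Grid (2 ^ b * (2 * h + 2)) M,
      dec d ρ v * (mon θ v (kap τ (σ l.1) l.2) *
        eD (2 ^ b) (fun j => adr θ a σ v x (j, a l.1 j))) =
      dec d ρ v * (mon θ v (kap τ (σ l.1) l.2) *
        (∑ β', mon θ v (uvec (σ l.1) β') * x (l.1, β')) ^ 2 ^ b) +
      dec d ρ v * (mon θ v (kap τ (σ l.1) l.2) * eD (2 ^ b) (rest θ a σ l.1 v x)) := by
    intro v
    have h2 : (fun j => adr θ a σ v x (j, a l.1 j)) = fun j =>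
        (∑ β', mon θ v (uvec (σ l.1) β') * x (l.1, β')) + rest θ a σ l.1 v x j := by
      funext j
      exact adr_eq θ a σ l.1 v x j
    rw [h2, eD_add]
    ring
  rw [sum_congr rfl (fun v _ => h1 v), sum_add_distrib,
    pure_part θ d σ hd τ ρ l x, mixed_part θ d a σ hd hA τ ρ l hgood x, add_zero]

end Key

end Pool.Agent.OMV.Toric
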