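import Pool.Agent.Work.MP_0f1f76_lc.Toric.Select

/-!
# A code with few agreements
-/

namespace Pool.Agent.OMV.Toric

open Finset

/-- the weight of one coordinate -/
noncomputable def cw {q : ℕ} (u v : Fin q) : ℝ := if v = u then (q : ℝ) else 1

theorem cw_nonneg {q : ℕ} (u v : Fin q) : 0 ≤ cw u v := by
  unfold cw; split_ifs
  · exact Nat.cast_nonneg q
  · norm_num

theorem prod_cw {m q : ℕ} (x y : Fin m → Fin q) :
    ∏ j, cw (x j) (y j) = (q : ℝ) ^ (univ.filter (fun j => y j = x j)).card := by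
  unfold cw
  rw [prod_ite, prod_const, prod_const_one, mul_one]

theorem sum_cw {q : ℕ} (u : Fin q) : ∑ v, cw u v ≤ 2 * q := by
  unfold cw
  have h1 : ∀ v ∈ (univ : Finset (Fin q)), (if v = u then (q : ℝ) else 1) ≤
      (if v = u then (q : ℝ) else 0) + 1 := by
    intro v _
    split_ifs <;> norm_num
  refine (sum_le_sum h1).trans ?_
  rw [sum_add_distrib, sum_ite_eq' univ u, if_pos (mem_univ _), sum_const, card_univ,
    Fintype.card_fin, nsmul_eq_mul, mul_one]
  linarith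

theorem sum_prod_cw {m q : ℕ} (x : Fin m → Fin q) :
    ∑ y : Fin m → Fin q, ∏ j, cw (x j) (y j) ≤ 2 ^ m * (q : ℝ) ^ m := by
  have h2 := Finset.prod_univ_sum (fun _ : Fin m => (univ : Finset (Fin q)))
    (fun j v => cw (x j) v)
  rw [Fintype.piFinset_univ] at h2
  rw [← h2, ← mul_pow]
  calc ∏ j, ∑ v, cw (x j) v ≤ ∏ _j : Fin m, (2 * (q : ℝ)) :=
        prod_le_prod (fun j _ => sum_nonneg fun v _ => cw_nonneg _ _) (fun j _ => sum_cw (x j))
    _ = (2 * (q : ℝ)) ^ m := by rw [prod_const, card_univ, Fintype.card_fin]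

theorem exists_code_aux (q m D d : ℕ) (hq : (q : ℝ) = 2 ^ 16) (hd : D = 4 * d) (hd1 : 1 ≤ d)
    (hm : m = 2 * D - 1) :
    ∃ a : Fin (2 ^ D) → Fin m → Fin q,
      ∀ c c', c ≠ c' → 4 * (univ.filter (fun j => a c j = a c' j)).card ≤ D := by
  have hm' : m = 8 * d - 1 := by omega
  have hq0 : 0 < q := by
    have : (0 : ℝ) < q := by rw [hq]; norm_num
    exact_mod_cast this
  have : NeZero q := ⟨hq0.ne'⟩
  set K : ℝ := (q : ℝ) ^ (d + 1) with hK
  have hK0 : 0 < K := by positivity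
  let W : (Fin m → Fin q) → (Fin m → Fin q) → ℝ :=
    fun x y => (∏ j, cw (x j) (y j)) / K
  have hW0 : ∀ x y, 0 ≤ W x y := fun x y =>
    div_nonneg (prod_nonneg fun j _ => cw_nonneg _ _) hK0.le
  have hWs : ∀ x, ∑ y, W x y ≤ (2 ^ m / K) * Fintype.card (Fin m → Fin q) := by
    intro x
    show ∑ y : Fin m → Fin q, (∏ j, cw (x j) (y j)) / K ≤ _
    rw [← sum_div, Fintype.card_fun, Fintype.card_fin, Fintype.card_fin, div_mul_eq_mul_div]
    apply div_le_div_of_nonneg_right _ hK0.le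
    rw [Nat.cast_pow]
    exact sum_prod_cw x
  obtain ⟨f, hf⟩ := select W (2 ^ m / K) hWs (2 ^ D)
  have key : ∀ n < 2 ^ D, ∀ i < n,
      4 * (univ.filter (fun j => f n j = f i j)).card ≤ D := by
    intro n hn i hi
    have h1 : W (f i) (f n) ≤ n * (2 ^ m / K) :=
      (single_le_sum (f := fun i => W (f i) (f n)) (fun i _ => hW0 _ _) (mem_range.mpr hi)).trans
        (hf n hn)
    have h2 : (n : ℝ) * (2 ^ m / K) < 1 := by
      have hn' : (n : ℝ) ≤ 2 ^ D := by exact_mod_cast hn.le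
      have h3 : (n : ℝ) * (2 ^ m / K) ≤ 2 ^ D * (2 ^ m / K) :=
        mul_le_mul_of_nonneg_right hn' (by positivity)
      refine lt_of_le_of_lt h3 ?_
      rw [← mul_div_assoc, ← pow_add, div_lt_one hK0, hK, hq, ← pow_mul]
      apply pow_lt_pow_right₀ (by norm_num)
      omega
    have h4 : W (f i) (f n) < 1 := lt_of_le_of_lt h1 h2
    have h5 : (∏ j, cw (f i j) (f n j)) / K < 1 := h4
    rw [div_lt_one hK0, prod_cw, hK] at h5
    have hq1 : (1 : ℝ) < q := by rw [hq]; norm_num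
    have h6 := (pow_lt_pow_iff_right₀ hq1).mp h5
    omega
  refine ⟨fun c => f c.val, fun c c' hcc => ?_⟩
  rcases lt_or_gt_of_ne (fun h => hcc (Fin.ext h) : c.val ≠ c'.val) with h | h
  · have := key c'.val c'.isLt c.val h
    have e : (univ.filter (fun j => f c.val j = f c'.val j)) =
        univ.filter (fun j => f c'.val j = f c.val j) := filter_congr fun j _ => eq_comm
    rw [e]; exact this
  · exact key c.val c.isLt c'.val h

theorem exists_code (b : ℕ) (hb : 2 ≤ b) :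
    ∃ a : Fin (2 ^ 2 ^ b) → Fin (2 * 2 ^ b - 1) → Fin (2 ^ 16),
      ∀ c c', c ≠ c' → 4 * (univ.filter (fun j => a c j = a c' j)).card ≤ 2 ^ b := by
  obtain ⟨d, hd⟩ : ∃ d, 2 ^ b = 4 * d := by
    refine ⟨2 ^ (b - 2), ?_⟩
    rw [show (4 : ℕ) = 2 ^ 2 by norm_num, ← pow_add]
    congr 1; omega
  have hd1 : 1 ≤ d := by
    have : 0 < 2 ^ b := by positivity
    omega
  exact exists_code_aux (2 ^ 16) (2 * 2 ^ b - 1) (2 ^ b) d (by norm_num) hd hd1 rfl

end Pool.Agent.OMV.Toric
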