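import Pool.Agent.Work.MP_0f1f76_lc.Toric.Select

/-!
# Random signs
-/

namespace Pool.Agent.OMV.Toric

open Finset

/-- the weight of one block -/
noncomputable def phi (a b : Bool) : ℝ := if a = b then 4 / 3 else 27 / 64

theorem phi_nonneg (a b : Bool) : 0 ≤ phi a b := by
  unfold phi; split_ifs <;> norm_num

theorem sep_comm {M : ℕ} {I : Finset (Fin M)} {x y : Fin M → Bool} (h : Sep I x y) :
    Sep I y x := by
  unfold Sep at h ⊢
  have e1 : I.filter (fun i => y i = x i) = I.filter (fun i => x i = y i) :=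
    filter_congr fun i _ => eq_comm
  have e2 : I.filter (fun i => y i ≠ x i) = I.filter (fun i => x i ≠ y i) :=
    filter_congr fun i _ => ne_comm
  rw [e1, e2]
  exact h

theorem one_le_prod {M : ℕ} {I : Finset (Fin M)} {x y : Fin M → Bool} (h : ¬ Sep I x y) :
    1 ≤ ∏ i ∈ I, phi (x i) (y i) := by
  unfold Sep at h
  push Not at h
  unfold phi
  rw [prod_ite, prod_const, prod_const]
  set a := (I.filter (fun i => x i = y i)).card with ha
  set d := (I.filter (fun i => ¬ (x i = y i))).card with hd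
  have h' : 3 * d ≤ a := h
  calc (1 : ℝ) = ((4 / 3 : ℝ) ^ 3 * (27 / 64)) ^ d := by norm_num
    _ = (4 / 3 : ℝ) ^ (3 * d) * (27 / 64) ^ d := by rw [mul_pow, ← pow_mul]
    _ ≤ (4 / 3 : ℝ) ^ a * (27 / 64) ^ d := by
      apply mul_le_mul_of_nonneg_right _ (by positivity)
      exact pow_le_pow_right₀ (by norm_num) h'

theorem sum_prod_phi {M : ℕ} (I : Finset (Fin M)) (x : Fin M → Bool) :
    ∑ y : Fin M → Bool, ∏ i ∈ I, phi (x i) (y i) = 2 ^ M * (337 / 384) ^ I.card := by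
  have h1 : ∀ y : Fin M → Bool, ∏ i ∈ I, phi (x i) (y i) =
      ∏ i, if i ∈ I then phi (x i) (y i) else 1 := by
    intro y
    rw [prod_ite_mem, univ_inter]
  simp_rw [h1]
  have h2 := Finset.prod_univ_sum (fun _ : Fin M => (univ : Finset Bool))
    (fun i b => if i ∈ I then phi (x i) b else (1 : ℝ))
  rw [Fintype.piFinset_univ] at h2
  rw [← h2]
  have h3 : ∀ i : Fin M, ∑ b : Bool, (if i ∈ I then phi (x i) b else (1 : ℝ)) =
      2 * if i ∈ I then (337 / 384 : ℝ) else 1 := by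
    intro i
    split_ifs with hi
    · rw [Fintype.sum_bool]
      unfold phi
      cases x i <;> norm_num
    · norm_num
  simp_rw [h3]
  rw [prod_mul_distrib, prod_const, card_univ, Fintype.card_fin, prod_ite_mem, univ_inter,
    prod_const]

/-- clean block -/
def Cl (D : ℕ) {h : ℕ} (t : Row1 D h) (b : Bool) : Prop :=
  b = true ∧ 16 * (t.1.1 : ℕ) < D ∧ 16 * (t.1.2 : ℕ) < D

instance (D h : ℕ) (t : Row1 D h) (b : Bool) : Decidable (Cl D t b) := by
  unfold Cl; infer_instance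

theorem card_small {b : ℕ} (hb : 4 ≤ b) :
    (univ.filter (fun a : Fin (2 ^ b) => 16 * (a : ℕ) < 2 ^ b)).card = 2 ^ (b - 4) := by
  have e : 2 ^ b = 16 * 2 ^ (b - 4) := by
    rw [show (16 : ℕ) = 2 ^ 4 by norm_num, ← pow_add]
    congr 1; omega
  have h1 : univ.filter (fun a : Fin (2 ^ b) => 16 * (a : ℕ) < 2 ^ b) =
      univ.filter (fun a : Fin (2 ^ b) => (a : ℕ) < 2 ^ (b - 4)) :=
    filter_congr fun a _ => by omega
  rw [h1, Fin.card_filter_val_lt]
  have : 2 ^ (b - 4) ≤ 2 ^ b := Nat.pow_le_pow_right (by norm_num) (by omega)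
  omega

theorem sum_block {b h : ℕ} (hb : 4 ≤ b) :
    ∑ t : Row1 (2 ^ b) h, ∑ β : Bool, (if Cl (2 ^ b) t β then (337 / 384 : ℝ) else 1) =
      Fintype.card (Row1 (2 ^ b) h) * 2 * (1 - 47 / 196608) := by
  have h1 : ∀ t : Row1 (2 ^ b) h, ∑ β : Bool, (if Cl (2 ^ b) t β then (337 / 384 : ℝ) else 1) =
      2 - 47 / 384 * ((if 16 * (t.1.1 : ℕ) < 2 ^ b then 1 else 0) *
        (if 16 * (t.1.2 : ℕ) < 2 ^ b then 1 else 0)) := by
    intro t
    rw [Fintype.sum_bool]
    unfold Cl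
    by_cases h1 : 16 * (t.1.1 : ℕ) < 2 ^ b <;> by_cases h2 : 16 * (t.1.2 : ℕ) < 2 ^ b <;>
      simp [h1, h2] <;> norm_num
  simp_rw [h1]
  rw [sum_sub_distrib, sum_const, card_univ, ← mul_sum]
  have h2 : ∑ t : Row1 (2 ^ b) h, ((if 16 * (t.1.1 : ℕ) < 2 ^ b then (1 : ℝ) else 0) *
        (if 16 * (t.1.2 : ℕ) < 2 ^ b then 1 else 0)) =
      (2 ^ (b - 4) : ℝ) * 2 ^ (b - 4) * Fintype.card (Fin (2 * h) × Fin h) := by
    have h3 : ∑ i : Fin (2 ^ b), (if 16 * (i : ℕ) < 2 ^ b then (1 : ℝ) else 0) =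
        2 ^ (b - 4) := by
      rw [sum_boole]
      have := card_small hb
      rw [this]
      push_cast
      rfl
    rw [Fintype.sum_prod_type]
    have h5 : ∀ x : Fin (2 ^ b) × Fin (2 ^ b), ∑ _y : Fin (2 * h) × Fin h,
        ((if 16 * (x.1 : ℕ) < 2 ^ b then (1 : ℝ) else 0) *
        (if 16 * (x.2 : ℕ) < 2 ^ b then 1 else 0)) = Fintype.card (Fin (2 * h) × Fin h) *
        ((if 16 * (x.1 : ℕ) < 2 ^ b then (1 : ℝ) else 0) *
        (if 16 * (x.2 : ℕ) < 2 ^ b then 1 else 0)) := by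
      intro x
      rw [sum_const, card_univ, nsmul_eq_mul]
    rw [sum_congr rfl fun x _ => h5 x, ← mul_sum, Fintype.sum_prod_type]
    have h6 : ∀ x : Fin (2 ^ b), ∑ y : Fin (2 ^ b),
        ((if 16 * (x : ℕ) < 2 ^ b then (1 : ℝ) else 0) *
        (if 16 * (y : ℕ) < 2 ^ b then 1 else 0)) =
        (if 16 * (x : ℕ) < 2 ^ b then (1 : ℝ) else 0) * 2 ^ (b - 4) := by
      intro x
      rw [← mul_sum, h3]
    rw [sum_congr rfl fun x _ => h6 x, ← sum_mul, h3]
    ring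
  rw [h2, nsmul_eq_mul]
  have e : ((2 : ℝ) ^ b) = 16 * 2 ^ (b - 4) := by
    rw [show (16 : ℝ) = 2 ^ 4 by norm_num, ← pow_add]
    congr 1; omega
  have h4 : ((Fintype.card (Row1 (2 ^ b) h) : ℕ) : ℝ) =
      (16 * 2 ^ (b - 4)) * (16 * 2 ^ (b - 4)) * Fintype.card (Fin (2 * h) × Fin h) := by
    rw [Fintype.card_prod, Fintype.card_prod, Fintype.card_fin]
    push_cast
    rw [e]
  rw [h4]
  ring

theorem sum_pairs {b h M : ℕ} (hb : 4 ≤ b) :
    ∑ p : Row (2 ^ b) h M × (Fin M → Bool), (337 / 384 : ℝ) ^ (cleanSet p.1 p.2).card =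
      (Fintype.card (Row1 (2 ^ b) h) * 2 * (1 - 47 / 196608)) ^ M := by
  have h0 : ∀ p : Row (2 ^ b) h M × (Fin M → Bool),
      (337 / 384 : ℝ) ^ (cleanSet p.1 p.2).card =
      ∏ i, if Cl (2 ^ b) (p.1 i) (p.2 i) then (337 / 384 : ℝ) else 1 := by
    intro p
    rw [prod_ite, prod_const, prod_const_one, mul_one]
    rfl
  simp_rw [h0]
  rw [Fintype.sum_prod_type]
  have h1 : ∀ τ : Row (2 ^ b) h M, ∑ β : Fin M → Bool,
      ∏ i, (if Cl (2 ^ b) (τ i) (β i) then (337 / 384 : ℝ) else 1) =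
      ∏ i, ∑ β : Bool, (if Cl (2 ^ b) (τ i) β then (337 / 384 : ℝ) else 1) := by
    intro τ
    rw [Finset.prod_univ_sum, Fintype.piFinset_univ]
  simp only [h1]
  have h2 := Finset.prod_univ_sum (fun _ : Fin M => (univ : Finset (Row1 (2 ^ b) h)))
    (fun _ t => ∑ β : Bool, (if Cl (2 ^ b) t β then (337 / 384 : ℝ) else 1))
  rw [Fintype.piFinset_univ] at h2
  rw [← h2, prod_const, card_univ, Fintype.card_fin, sum_block hb]

theorem num_bound (D : ℕ) :
    ((2 : ℝ) ^ D) ^ 3 * (1 - 47 / 196608) ^ (2 ^ 14 * D) ≤ 1 := by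
  have h1 : (1 - 47 / 196608 : ℝ) ≤ Real.exp (-(47 / 196608)) := by
    have := Real.add_one_le_exp (-(47 / 196608) : ℝ)
    linarith
  have h2 : (1 - 47 / 196608 : ℝ) ^ (2 ^ 14) ≤ 1 / 8 := by
    calc (1 - 47 / 196608 : ℝ) ^ (2 ^ 14) ≤ Real.exp (-(47 / 196608)) ^ (2 ^ 14) :=
          pow_le_pow_left₀ (by norm_num) h1 _
      _ = Real.exp (-(47 / 12)) := by
          rw [← Real.exp_nat_mul]
          congr 1
          norm_num
      _ ≤ Real.exp (-3) := Real.exp_le_exp.2 (by norm_num)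
      _ ≤ 1 / 8 := by
          rw [Real.exp_neg, show (3 : ℝ) = (3 : ℕ) * 1 by norm_num, Real.exp_nat_mul]
          rw [inv_eq_one_div]
          apply one_div_le_one_div_of_le (by norm_num)
          have : (2 : ℝ) ≤ Real.exp 1 := by
            have := Real.exp_one_gt_d9
            linarith
          calc (8 : ℝ) = 2 ^ 3 := by norm_num
            _ ≤ _ := pow_le_pow_left₀ (by norm_num) this 3
  calc ((2 : ℝ) ^ D) ^ 3 * (1 - 47 / 196608) ^ (2 ^ 14 * D)
      = (8 * (1 - 47 / 196608) ^ (2 ^ 14)) ^ D := by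
        rw [mul_pow, ← pow_mul, ← pow_mul, mul_comm D 3, pow_mul]
        norm_num
    _ ≤ 1 ^ D := by
        have h3 := mul_le_mul_of_nonneg_left h2 (by norm_num : (0 : ℝ) ≤ 8)
        have h4 : (8 : ℝ) * (1 / 8) = 1 := by norm_num
        rw [h4] at h3
        have h5 : (0 : ℝ) ≤ 1 - 47 / 196608 := by norm_num
        exact pow_le_pow_left₀ (mul_nonneg (by norm_num) (pow_nonneg h5 _)) h3 _
    _ = 1 := one_pow D

open Classical in
theorem exists_signs (b h : ℕ) (hb : 4 ≤ b) :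
    ∃ σ : Fin (2 ^ 2 ^ b) → Fin (2 ^ (14 + b)) → Bool,
      2 ^ 2 ^ b * (univ.filter (fun p : Row (2 ^ b) h (2 ^ (14 + b)) × (Fin (2 ^ (14 + b)) → Bool) =>
        ¬ GoodPair σ p.1 p.2)).card ≤
      Fintype.card (Row (2 ^ b) h (2 ^ (14 + b))) * 2 ^ 2 ^ (14 + b) := by
  set M := 2 ^ (14 + b) with hM
  set C := 2 ^ 2 ^ b with hC
  set N := Fintype.card (Row1 (2 ^ b) h) with hN
  let W : (Fin M → Bool) → (Fin M → Bool) → ℝ := fun x y =>
    ∑ p : Row (2 ^ b) h M × (Fin M → Bool), ∏ i ∈ cleanSet p.1 p.2, phi (x i) (y i)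
  set w : ℝ := (N * 2 * (1 - 47 / 196608)) ^ M with hw
  have hW : ∀ x, ∑ y, W x y ≤ w * Fintype.card (Fin M → Bool) := by
    intro x
    simp only [W]
    rw [sum_comm]
    simp_rw [sum_prod_phi]
    rw [← mul_sum, sum_pairs hb]
    rw [Fintype.card_fun, Fintype.card_bool, Fintype.card_fin]
    push_cast
    rw [mul_comm]
  obtain ⟨f, hf⟩ := select W w hW C
  have hw0 : 0 ≤ w := by
    rw [hw]
    have : (0 : ℝ) ≤ 1 - 47 / 196608 := by norm_num
    positivity
  refine ⟨fun c => f c, ?_⟩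
  -- the bad pairs are counted by the weights
  have hbad : ((univ.filter (fun p : Row (2 ^ b) h M × (Fin M → Bool) =>
        ¬ GoodPair (fun c : Fin C => f c) p.1 p.2)).card : ℝ) ≤
      ∑ n ∈ range C, ∑ i ∈ range n, W (f i) (f n) := by
    simp only [W]
    have e1 : ∑ n ∈ range C, ∑ i ∈ range n,
        ∑ p : Row (2 ^ b) h M × (Fin M → Bool), ∏ j ∈ cleanSet p.1 p.2, phi (f i j) (f n j) =
        ∑ p : Row (2 ^ b) h M × (Fin M → Bool), ∑ n ∈ range C, ∑ i ∈ range n,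
          ∏ j ∈ cleanSet p.1 p.2, phi (f i j) (f n j) := by
      rw [sum_comm (s := univ) (t := range C)]
      refine (sum_congr rfl fun n _ => ?_)
      rw [sum_comm]
    rw [e1, card_filter]
    push_cast
    refine sum_le_sum fun p _ => ?_
    have hnn : ∀ i n : ℕ, 0 ≤ ∏ j ∈ cleanSet p.1 p.2, phi (f i j) (f n j) :=
      fun i n => prod_nonneg fun j _ => phi_nonneg _ _
    have key : ∀ c c' : ℕ, c < c' → c' < C → ¬ Sep (cleanSet p.1 p.2) (f c) (f c') →
        1 ≤ ∑ n ∈ range C, ∑ i ∈ range n, ∏ j ∈ cleanSet p.1 p.2, phi (f i j) (f n j) := by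
      intro c c' hcc hc' hs
      calc (1 : ℝ) ≤ ∏ j ∈ cleanSet p.1 p.2, phi (f c j) (f c' j) := one_le_prod hs
        _ ≤ ∑ i ∈ range c', ∏ j ∈ cleanSet p.1 p.2, phi (f i j) (f c' j) :=
            single_le_sum (f := fun i => ∏ j ∈ cleanSet p.1 p.2, phi (f i j) (f c' j))
              (fun i _ => hnn i c') (mem_range.2 hcc)
        _ ≤ _ := single_le_sum
              (f := fun n => ∑ i ∈ range n, ∏ j ∈ cleanSet p.1 p.2, phi (f i j) (f n j))
              (fun n _ => sum_nonneg fun i _ => hnn i n) (mem_range.2 hc')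
    by_cases hg : GoodPair (fun c : Fin C => f c) p.1 p.2
    · rw [if_neg (not_not.2 hg)]
      exact sum_nonneg fun n _ => sum_nonneg fun i _ => hnn i n
    · rw [if_pos hg]
      unfold GoodPair at hg
      push Not at hg
      obtain ⟨c, c', hne, hs⟩ := hg
      rcases lt_trichotomy (c : ℕ) (c' : ℕ) with hlt | heq | hgt
      · exact key c c' hlt c'.2 hs
      · exact absurd (Fin.ext heq) hne
      · exact key c' c hgt c.2 fun h' => hs (sep_comm h')
  have hsum : ∑ n ∈ range C, ∑ i ∈ range n, W (f i) (f n) ≤ (C : ℝ) * (C * w) := by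
    calc ∑ n ∈ range C, ∑ i ∈ range n, W (f i) (f n) ≤ ∑ n ∈ range C, (C : ℝ) * w := by
          refine sum_le_sum fun n hn => ?_
          have hn' := mem_range.1 hn
          refine (hf n hn').trans ?_
          have : (n : ℝ) ≤ C := by exact_mod_cast hn'.le
          exact mul_le_mul_of_nonneg_right this hw0
      _ = _ := by rw [sum_const, card_range, nsmul_eq_mul]
  have hnum := num_bound (2 ^ b)
  have hMD : 2 ^ 14 * 2 ^ b = M := by rw [hM, pow_add]
  rw [hMD] at hnum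
  have hCr : ((C : ℕ) : ℝ) = (2 : ℝ) ^ 2 ^ b := by rw [hC]; push_cast; rfl
  have hfin : (C : ℝ) * ((univ.filter (fun p : Row (2 ^ b) h M × (Fin M → Bool) =>
        ¬ GoodPair (fun c : Fin C => f c) p.1 p.2)).card : ℝ) ≤
      (N : ℝ) ^ M * 2 ^ M := by
    calc _ ≤ (C : ℝ) * (C * (C * w)) :=
          mul_le_mul_of_nonneg_left (hbad.trans hsum) (Nat.cast_nonneg _)
      _ = ((C : ℝ) ^ 3 * (1 - 47 / 196608) ^ M) * ((N : ℝ) ^ M * 2 ^ M) := by
          rw [hw, mul_pow, mul_pow]; ring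
      _ ≤ 1 * ((N : ℝ) ^ M * 2 ^ M) := by
          rw [hCr]
          exact mul_le_mul_of_nonneg_right hnum (by positivity)
      _ = _ := one_mul _
  have hcard : Fintype.card (Row (2 ^ b) h M) = N ^ M := by
    rw [Fintype.card_fun, Fintype.card_fin]
  rw [hcard]
  exact_mod_cast hfin

end Pool.Agent.OMV.Toric
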