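import Pool.Agent.Work.MP_0f1f76_lc.Toric.FinalCore
import Pool.Agent.Work.MP_0f1f76_lc.Toric.Param
import Pool.Agent.Work.MP_0f1f76_lc.Fast.Program

/-!
Module FINAL of the toric gadget.
-/

namespace Pool.Agent.OMV.Toric

theorem omv_final : ∃ (c : ℝ) (_ : 0 < c) (n₀ : ℕ), ∀ n : ℕ, n₀ ≤ n →
    ∃ (S : ℕ) (P : List Instr) (out : ℕ → ℕ)
      (pre : Matrix (Fin n) (Fin n) (ZMod 2) →ₗ[ZMod 2]
        (Fin S → Word (Nat.clog 2 n) → Word (Nat.clog 2 n)))
      (base : Fin S → Word (Nat.clog 2 n) → Word (Nat.clog 2 n)),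
      S ≤ n ^ 2 ∧
      (P.length : ℝ) ≤ (n : ℝ) ^ (2 - c / Real.log (Real.log n)) ∧
      ∀ M, Computes P out (base + pre M) M :=
  omv_final_of toric_family
    (by
      intro r m s t g n w L u G J hw hr hu hL hum hG hJ
      exact program_of_gadget g hw hr hu hL hum hG hJ)

end Pool.Agent.OMV.Toric
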