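import Pool.Agent.Work.MP_0f1f76_lc.Toric.Basic
import Pool.Agent.Work.MP_0f1f76_lc.Fast.FinalCore

/-!
Module FINAL of the toric gadget: the choice of the parameters.
-/

namespace Pool.Agent.OMV.Toric

open Filter Topology

/-- The statement of module PARAM. -/
def ToricFamily : Prop := ∀ b : ℕ, 4 ≤ b → ∃ (r m s t : ℕ) (_ : XorGadget r m s t),
    0 < r ∧ r ≤ t ∧ 0 < s ∧ s ≤ 2 ^ (b + 17) * (2 * b + 17) ∧ 2 * s ≤ m ∧
    t ≤ 2 ^ (2 ^ (b + 15) * (2 * b + 17) + 2 * b + 18) ∧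
    m ≤ 2 ^ (2 ^ (b + 15) * (2 * b + 17) + 2 * b + 18) ∧
    t * 2 ^ 2 ^ b ≤ 4 * (r * m)

/-- One size: the gadget becomes a program (variant of `final_step` with `m * w ≤ n`). -/
lemma final_step' (program_of_gadget : ProgramOfGadget) {r m s t n w : ℕ}
    (g : XorGadget r m s t) (hr : 0 < r) (hrt : r ≤ t)
    (hs : 0 < s) (hsw : 16 * s ≤ w) (ht : t ≤ 2 ^ (w / 16)) (hm1 : 2 * s ≤ m)
    (hm2 : m * w ≤ n) (hn2 : w * 2 ^ (w / 16) ≤ n) (σ : ℝ)
    (hσ : (t : ℝ) * s * σ ≤ r * m) (hσ0 : 0 < σ) :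
    ∃ (S : ℕ) (P : List Instr) (out : ℕ → ℕ)
      (pre : Matrix (Fin n) (Fin n) (ZMod 2) →ₗ[ZMod 2] (Fin S → Word w → Word w))
      (base : Fin S → Word w → Word w),
      (S : ℝ) ≤ 2 ^ (w / 16) * n + 16 * n ^ 2 / (σ * w ^ 2) ∧
      (P.length : ℝ) ≤ 32 * n ^ 2 / (σ * w ^ 2) + 6 * 2 ^ (w / 16) * n + 1 ∧
      ∀ M, Computes P out (base + pre M) M := by
  have hw : 0 < w := by omega
  have ht0 : 0 < t := by omega
  set L := w / s with hL
  have hL1 : s * L ≤ w := Nat.mul_div_le w s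
  have hL2 : w < s * (L + 1) := Nat.lt_mul_div_succ w hs
  have hLpos : 1 ≤ L := by
    rw [hL, Nat.one_le_div_iff hs]
    omega
  have hLw : L ≤ w := Nat.div_le_self w s
  have hL3 : w ≤ 2 * (s * L) := by nlinarith
  set u := L * m / w with hu
  have hu1 : w * u ≤ L * m := Nat.mul_div_le _ _
  have hu2 : L * m < w * (u + 1) := Nat.lt_mul_div_succ _ hw
  have hLm : w ≤ L * m := by nlinarith
  have hupos : 1 ≤ u := by
    rw [hu, Nat.one_le_div_iff hw]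
    exact hLm
  have hu3 : L * m ≤ 2 * (w * u) := by nlinarith
  have hmu : m ≤ 4 * (s * u) := by
    have h1 : w * m ≤ w * (4 * (s * u)) := by
      calc w * m ≤ 2 * (s * L) * m := Nat.mul_le_mul_right _ hL3
        _ = 2 * s * (L * m) := by ring
        _ ≤ 2 * s * (2 * (w * u)) := Nat.mul_le_mul_left _ hu3
        _ = w * (4 * (s * u)) := by ring
    exact Nat.le_of_mul_le_mul_left h1 hw
  have huw : u * w ≤ n := by
    calc u * w = w * u := mul_comm _ _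
      _ ≤ L * m := hu1
      _ ≤ w * m := Nat.mul_le_mul_right _ hLw
      _ = m * w := mul_comm _ _
      _ ≤ n := hm2
  have hrw : r * w ≤ n := by
    calc r * w ≤ 2 ^ (w / 16) * w := Nat.mul_le_mul_right _ (hrt.trans ht)
      _ = w * 2 ^ (w / 16) := mul_comm _ _
      _ ≤ n := hn2
  have huw0 : 0 < u * w := Nat.mul_pos hupos hw
  have hrw0 : 0 < r * w := Nat.mul_pos hr hw
  have ceil : ∀ q : ℕ, 0 < q → q ≤ n → ∃ G : ℕ, n ≤ G * q ∧ G * q ≤ 2 * n := by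
    intro q hq hqn
    refine ⟨(n + q - 1) / q, ?_, ?_⟩
    · have := Nat.lt_mul_div_succ (n + q - 1) hq
      have e : q * ((n + q - 1) / q + 1) = (n + q - 1) / q * q + q := by ring
      omega
    · have := Nat.div_mul_le_self (n + q - 1) q
      omega
  obtain ⟨G, hG1, hG2⟩ := ceil (u * w) huw0 huw
  obtain ⟨J, hJ1, hJ2⟩ := ceil (r * w) hrw0 hrw
  obtain ⟨S, P, out, pre, base, hS, hP, hM⟩ := program_of_gadget g (n := n) (w := w) (L := L)
    (u := u) (G := G) (J := J) hw hr hupos hL1 (by rw [mul_comm]; exact hu1) hG1 hJ1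
  refine ⟨S, P, out, pre, base, ?_, ?_, hM⟩
  all_goals
    have hw' : (0 : ℝ) < w := by exact_mod_cast hw
    have hs' : (0 : ℝ) < s := by exact_mod_cast hs
    have ht' : (0 : ℝ) < t := by exact_mod_cast ht0
    have hr' : (0 : ℝ) < r := by exact_mod_cast hr
    have hu' : (0 : ℝ) < u := by exact_mod_cast hupos
    have hG' : (G : ℝ) * (u * w) ≤ 2 * n := by exact_mod_cast hG2
    have hJ' : (J : ℝ) * (r * w) ≤ 2 * n := by exact_mod_cast hJ2
    have hmu' : (m : ℝ) ≤ 4 * (s * u) := by exact_mod_cast hmu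
    have ht2 : (t : ℝ) ≤ 2 ^ (w / 16) := by exact_mod_cast ht
    have hGJ : (t : ℝ) * G * J ≤ 16 * n ^ 2 / (σ * w ^ 2) := by
      rw [le_div_iff₀ (by positivity)]
      have h1 : (G : ℝ) * (u * w) * (J * (r * w)) ≤ 2 * n * (2 * n) :=
        mul_le_mul hG' hJ' (by positivity) (by positivity)
      have h2 : (t : ℝ) * s * σ ≤ r * (4 * (s * u)) :=
        hσ.trans (mul_le_mul_of_nonneg_left hmu' hr'.le)
      have h3 : (t : ℝ) * σ ≤ 4 * (r * u) := by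
        have : (s : ℝ) * (t * σ) ≤ s * (4 * (r * u)) := by nlinarith
        exact le_of_mul_le_mul_left this hs'
      calc (t : ℝ) * G * J * (σ * (w : ℝ) ^ 2) = (t * σ) * (G * J * (w : ℝ) ^ 2) := by ring
        _ ≤ (4 * (r * u)) * (G * J * (w : ℝ) ^ 2) := by gcongr
        _ = 4 * (G * (u * w) * (J * (r * w))) := by ring
        _ ≤ 4 * (2 * (n : ℝ) * (2 * n)) := by gcongr
        _ = 16 * (n : ℝ) ^ 2 := by ring
    have hw1 : (1 : ℝ) ≤ w := by exact_mod_cast hw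
  · have hS' : (S : ℝ) ≤ t * u + t * G * J := by exact_mod_cast hS
    have h1 : (u : ℝ) ≤ n := by
      have : u ≤ n := by nlinarith
      exact_mod_cast this
    calc (S : ℝ) ≤ t * u + t * G * J := hS'
      _ ≤ 2 ^ (w / 16) * n + 16 * n ^ 2 / (σ * w ^ 2) := by
        apply add_le_add _ hGJ
        exact mul_le_mul ht2 h1 (by positivity) (by positivity)
  · have hP' : (P.length : ℝ) ≤ 2 * (t * G * u) + 2 * (t * G * J) + r * t * J + 1 := by
      exact_mod_cast hP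
    have h1 : (G : ℝ) * u ≤ 2 * n := by
      have : (G : ℝ) * u ≤ G * (u * w) := by
        have : (G : ℝ) * u * 1 ≤ G * u * w := by gcongr
        nlinarith
      linarith
    have h2 : (J : ℝ) * r ≤ 2 * n := by
      have : (J : ℝ) * r ≤ J * (r * w) := by
        have : (J : ℝ) * r * 1 ≤ J * r * w := by gcongr
        nlinarith
      linarith
    have h3 : (t : ℝ) * G * u ≤ 2 ^ (w / 16) * (2 * n) := by
      calc (t : ℝ) * G * u = t * (G * u) := by ring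
        _ ≤ _ := mul_le_mul ht2 h1 (by positivity) (by positivity)
    have h4 : (r : ℝ) * t * J ≤ 2 ^ (w / 16) * (2 * n) := by
      calc (r : ℝ) * t * J = t * (J * r) := by ring
        _ ≤ _ := mul_le_mul ht2 h2 (by positivity) (by positivity)
    calc (P.length : ℝ) ≤ 2 * (t * G * u) + 2 * (t * G * J) + r * t * J + 1 := hP'
      _ ≤ 2 * (2 ^ (w / 16) * (2 * n)) + 2 * (16 * n ^ 2 / (σ * w ^ 2)) +
          2 ^ (w / 16) * (2 * n) + 1 := by gcongr
      _ = _ := by ring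

/-- The size scale of the toric gadgets. -/
def Qt (b : ℕ) : ℕ := 2 ^ (b + 17) * (2 * b + 17)

lemma Qt_ge (b : ℕ) : b ≤ Qt b := by
  unfold Qt
  have h1 : 1 ≤ 2 ^ (b + 17) := Nat.one_le_two_pow
  nlinarith

lemma pick_t (b₁ w : ℕ) (h : 16 * Qt b₁ ≤ w) :
    ∃ b, b₁ ≤ b ∧ 16 * Qt b ≤ w ∧ w < 16 * Qt (b + 1) := by
  classical
  have hex : ∃ b, b₁ < b ∧ w < 16 * Qt b := by
    refine ⟨w + b₁ + 1, by omega, ?_⟩
    have := Qt_ge (w + b₁ + 1)
    omega
  obtain ⟨h1, h2⟩ := Nat.find_spec hex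
  set b' := Nat.find hex with hb'
  refine ⟨b' - 1, by omega, ?_, ?_⟩
  · by_contra hcon
    push Not at hcon
    rcases Nat.lt_or_ge b₁ (b' - 1) with h3 | h3
    · have := Nat.find_min hex (m := b' - 1) (by omega)
      exact this ⟨h3, hcon⟩
    · have : b' - 1 = b₁ := by omega
      rw [this] at hcon
      omega
  · rwa [Nat.sub_add_cancel (by omega)]

lemma E_le_Qt (b : ℕ) : 2 ^ (b + 15) * (2 * b + 17) + 2 * b + 18 ≤ Qt b := by
  unfold Qt
  have h1 : 2 ^ (b + 17) = 4 * 2 ^ (b + 15) := by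
    rw [show b + 17 = (b + 15) + 2 from rfl, pow_add]
    ring
  have h2 : 1 ≤ 2 ^ (b + 15) := Nat.one_le_two_pow
  rw [h1]
  nlinarith

lemma key_sigma {s w D : ℝ} (hs : 0 < s) (hD : 0 < D) (h1 : 16 * s ≤ w) :
    4 * D ≤ D / (4 * s) * w := by
  rw [div_mul_eq_mul_div, le_div_iff₀ (by positivity)]
  nlinarith

lemma key_hyp {s t rm D : ℝ} (hs : 0 < s) (hD : 0 < D) (h : t * D ≤ 4 * rm) :
    t * s * (D / (4 * s)) ≤ rm ∧ 0 < D / (4 * s) := by
  refine ⟨?_, by positivity⟩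
  have h2 : t * s * (D / (4 * s)) = t * D / 4 := by
    field_simp
  rw [h2]
  linarith

lemma key_frac {n σ w D : ℝ} (hw : 0 < w) (hD : 0 < D) (h : 4 * D ≤ σ * w) :
    n ^ 2 / (σ * w ^ 2) ≤ n ^ 2 / (4 * (w * D)) := by
  apply div_le_div_of_nonneg_left (by positivity) (by positivity)
  nlinarith

lemma key_S {n σ w D p S : ℝ} (hw : 0 < w) (hD : 0 < D) (h : 4 * D ≤ σ * w)
    (hS : S ≤ p * n + 16 * n ^ 2 / (σ * w ^ 2)) : S ≤ p * n + 4 * n ^ 2 / (w * D) := by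
  have key := key_frac (n := n) hw hD h
  have e1 : 16 * n ^ 2 / (σ * w ^ 2) = 16 * (n ^ 2 / (σ * w ^ 2)) := by ring
  have e2 : 4 * n ^ 2 / (w * D) = 16 * (n ^ 2 / (4 * (w * D))) := by
    field_simp
    ring
  rw [e1] at hS
  rw [e2]
  linarith

lemma key_P {n σ w D p P : ℝ} (hw : 0 < w) (hD : 0 < D) (h : 4 * D ≤ σ * w)
    (hP : P ≤ 32 * n ^ 2 / (σ * w ^ 2) + 6 * p * n + 1) :
    P ≤ 8 * n ^ 2 / (w * D) + 6 * p * n + 1 := by
  have key := key_frac (n := n) hw hD h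
  have e1 : 32 * n ^ 2 / (σ * w ^ 2) = 32 * (n ^ 2 / (σ * w ^ 2)) := by ring
  have e2 : 8 * n ^ 2 / (w * D) = 32 * (n ^ 2 / (4 * (w * D))) := by
    field_simp
    ring
  rw [e1] at hP
  rw [e2]
  linarith

/-- The bound in terms of the word length. -/
theorem omv_word (toric_family : ToricFamily) (program_of_gadget : ProgramOfGadget) (n w : ℕ)
    (hw0 : 16 * Qt 4 ≤ w) (hnw : 2 ^ (w - 1) ≤ n) :
    ∃ (b : ℕ) (_ : 2 ^ b ≤ w) (_ : w ≤ 2 ^ (b + 22) * (2 * b + 19))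
      (S : ℕ) (P : List Instr) (out : ℕ → ℕ)
      (pre : Matrix (Fin n) (Fin n) (ZMod 2) →ₗ[ZMod 2] (Fin S → Word w → Word w))
      (base : Fin S → Word w → Word w),
      (S : ℝ) ≤ 2 ^ (w / 16) * n + 4 * n ^ 2 / (w * 2 ^ 2 ^ b) ∧
      (P.length : ℝ) ≤ 8 * n ^ 2 / (w * 2 ^ 2 ^ b) + 6 * 2 ^ (w / 16) * n + 1 ∧
      ∀ M, Computes P out (base + pre M) M := by
  obtain ⟨b, hb4, hQ1, hQ2⟩ := pick_t 4 w hw0
  obtain ⟨r, m, s, t, g, hr, hrt, hs0, hs, hm1, ht, hm, hts⟩ := toric_family b hb4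
  have hE := E_le_Qt b
  have hexp : 2 ^ (b + 15) * (2 * b + 17) + 2 * b + 18 ≤ w / 16 := by omega
  have htQ : t ≤ 2 ^ (w / 16) := ht.trans (Nat.pow_le_pow_right (by norm_num) hexp)
  have hmQ : m ≤ 2 ^ (w / 16) := hm.trans (Nat.pow_le_pow_right (by norm_num) hexp)
  have hsw : 16 * s ≤ w := (Nat.mul_le_mul_left 16 hs).trans hQ1
  have hw1000 : 1000 ≤ w := by
    have : 1000 ≤ 16 * Qt 4 := by
      unfold Qt
      norm_num
    omega
  have hw16 : w * 2 ^ (w / 16) ≤ n := by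
    have h1 : w ≤ 2 ^ (w - 1 - w / 16) := by
      have h3 : w / 2 < 2 ^ (w / 2) := Nat.lt_two_pow_self
      have h4 : w ≤ 2 ^ (w / 2 + 1) := by
        rw [pow_succ]
        omega
      exact h4.trans (Nat.pow_le_pow_right (by norm_num) (by omega))
    calc w * 2 ^ (w / 16) ≤ 2 ^ (w - 1 - w / 16) * 2 ^ (w / 16) := Nat.mul_le_mul_right _ h1
      _ = 2 ^ (w - 1) := by
        rw [← pow_add]
        congr 1
        omega
      _ ≤ n := hnw
  have hmw : m * w ≤ n := by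
    calc m * w ≤ 2 ^ (w / 16) * w := Nat.mul_le_mul_right _ hmQ
      _ = w * 2 ^ (w / 16) := mul_comm _ _
      _ ≤ n := hw16
  have hbw : 2 ^ b ≤ w := by
    have h1 : 2 ^ b * 1 ≤ 2 ^ (b + 17) * (2 * b + 17) :=
      Nat.mul_le_mul (Nat.pow_le_pow_right (by norm_num) (by omega)) (by omega)
    have h2 : Qt b = 2 ^ (b + 17) * (2 * b + 17) := rfl
    omega
  have hwb : w ≤ 2 ^ (b + 22) * (2 * b + 19) := by
    have h1 : 16 * Qt (b + 1) = 2 ^ (b + 22) * (2 * b + 19) := by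
      unfold Qt
      rw [show b + 22 = (b + 1 + 17) + 4 from rfl, pow_add 2 (b + 1 + 17) 4]
      ring
    omega
  have hsr : (0 : ℝ) < s := Nat.cast_pos.2 hs0
  have hwr : (0 : ℝ) < w := Nat.cast_pos.2 (by omega)
  have hswr : (16 : ℝ) * s ≤ w := by exact_mod_cast hsw
  have htsr : (t : ℝ) * 2 ^ 2 ^ b ≤ 4 * (r * m) := by exact_mod_cast hts
  have hD : (0 : ℝ) < 2 ^ 2 ^ b := pow_pos two_pos _
  obtain ⟨hσ, hσ0⟩ := key_hyp hsr hD htsr
  obtain ⟨S, P, out, pre, base, hS, hP, hM⟩ := final_step' program_of_gadget g hr hrt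
    hs0 hsw htQ hm1 hmw hw16 _ hσ hσ0
  have hσw := key_sigma hsr hD hswr
  exact ⟨b, hbw, hwb, S, P, out, pre, base, key_S hwr hD hσw hS, key_P hwr hD hσw hP, hM⟩

lemma fin_S {n w D p S : ℝ} (hn : 0 < n) (hw : 16 ≤ w) (hD : 1 ≤ D) (hp : 1 ≤ p)
    (h : 28 * p * p ≤ n) (hS : S ≤ p * n + 4 * n ^ 2 / (w * D)) : S ≤ n ^ 2 := by
  have h1 : p * n ≤ n ^ 2 / 2 := by
    have : 2 * p ≤ n := by nlinarith
    nlinarith
  have h2 : 4 * n ^ 2 / (w * D) ≤ n ^ 2 / 2 := by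
    have h3 : (16 : ℝ) * 1 ≤ w * D := mul_le_mul hw hD (by norm_num) (by linarith)
    rw [div_le_div_iff₀ (by linarith) (by norm_num)]
    nlinarith [sq_nonneg n]
  linarith

lemma fin_P {n w D p P E : ℝ} (hn : 1 ≤ n) (hw : 16 ≤ w) (hD : 1 ≤ D) (hp : 1 ≤ p)
    (h : 28 * p * p ≤ n) (hE0 : 0 < E) (hE1 : 1 / D ≤ E) (hE2 : 1 ≤ p * 2 * E)
    (hP : P ≤ 8 * n ^ 2 / (w * D) + 6 * p * n + 1) : P ≤ n ^ 2 * E := by
  have hw0 : 0 < w := by linarith
  have hn0 : 0 < n := by linarith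
  have hD0 : 0 < D := by linarith
  have hp0 : 0 < p := by linarith
  have ha : 8 * n ^ 2 / (w * D) ≤ n ^ 2 * E / 2 := by
    have h1 : 8 * n ^ 2 / (w * D) = (8 / w) * (n ^ 2 * (1 / D)) := by
      field_simp
    have h2 : 8 / w ≤ 1 / 2 := by
      rw [div_le_div_iff₀ hw0 (by norm_num)]
      linarith
    rw [h1]
    calc (8 / w) * (n ^ 2 * (1 / D)) ≤ (1 / 2) * (n ^ 2 * E) := by gcongr
      _ = _ := by ring
  have hb' : 6 * p * n + 1 ≤ n ^ 2 * E / 2 := by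
    have h6 : 6 * p * n + 1 ≤ 7 * p * n := by nlinarith
    calc 6 * p * n + 1 ≤ 7 * p * n * 1 := by linarith
      _ ≤ 7 * p * n * (p * 2 * E) := by gcongr
      _ = (28 * p * p) * (n * E / 2) := by ring
      _ ≤ n * (n * E / 2) := by gcongr
      _ = _ := by ring
  linarith

lemma pow_bound (w : ℕ) (hw : 1000 ≤ w) :
    28 * 2 ^ (w / 16) * 2 ^ (w / 16) ≤ 2 ^ (w - 1) := by
  calc 28 * 2 ^ (w / 16) * 2 ^ (w / 16) ≤ 2 ^ 5 * 2 ^ (w / 16) * 2 ^ (w / 16) := by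
        gcongr
        norm_num
    _ = 2 ^ (5 + w / 16 + w / 16) := by rw [pow_add, pow_add]
    _ ≤ 2 ^ (w - 1) := Nat.pow_le_pow_right (by norm_num) (by omega)

lemma log_bounds (n w : ℕ) (hw : 1000 ≤ w) (hnw : 2 ^ (w - 1) ≤ n) (hnw2 : n ≤ 2 ^ w) :
    (w - 1) * Real.log 2 ≤ Real.log n ∧ Real.log n ≤ w * Real.log 2 := by
  have hpos2 : 0 < 2 ^ (w - 1) := by positivity
  have hnr : (0 : ℝ) < n := Nat.cast_pos.2 (by omega)
  constructor
  · have h1 : ((2 : ℝ) ^ (w - 1)) ≤ n := by exact_mod_cast hnw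
    have h2 : Real.log ((2 : ℝ) ^ (w - 1)) ≤ Real.log n := Real.log_le_log (by positivity) h1
    rw [Real.log_pow] at h2
    rwa [Nat.cast_sub (by omega : 1 ≤ w), Nat.cast_one] at h2
  · have : (n : ℝ) ≤ 2 ^ w := by exact_mod_cast hnw2
    calc Real.log n ≤ Real.log (2 ^ w) := Real.log_le_log hnr this
      _ = w * Real.log 2 := Real.log_pow _ _

lemma expo_real {L w B b : ℝ} (hw : 1000 ≤ w) (h1 : (w - 1) * Real.log 2 ≤ L)
    (h2 : L ≤ w * Real.log 2) (hb0 : 0 ≤ b) (hB : 0 < B) (hBb : Real.log B = b * Real.log 2)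
    (hBw : B ≤ w) (hwB : w ≤ B * 4194304 * (2 * b + 19)) :
    0 < Real.log L ∧ L * (1 / 2 ^ 30 / Real.log L) ≤ B * Real.log 2 ∧
    L * (1 / 2 ^ 30 / Real.log L) ≤ (w / 16) * Real.log 2 := by
  have hl2 : Real.log 2 < 0.6931471808 := Real.log_two_lt_d9
  have hl2' : 0.6931471803 < Real.log 2 := Real.log_two_gt_d9
  have hlw : L ≤ w := by nlinarith
  have hlw2 : w ≤ 2 * L := by nlinarith
  have hlo6 : 6 ≤ L := by nlinarith
  have hll1 : 1 ≤ Real.log L := by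
    rw [Real.le_log_iff_exp_le (by linarith)]
    have := Real.exp_one_lt_d9
    linarith
  set ℓ := Real.log L with hℓ
  have hℓ0 : 0 < ℓ := by linarith
  have hL0 : 0 < L := by linarith
  have hb : b + 1 ≤ 6 * ℓ := by
    have h3 : Real.log B ≤ Real.log 2 + ℓ := by
      have := Real.log_le_log hB (hBw.trans hlw2)
      rwa [Real.log_mul (by norm_num) (by linarith)] at this
    rw [hBb] at h3
    nlinarith
  refine ⟨hℓ0, ?_, ?_⟩
  · have h3 : w ≤ B * (4194304 * 114 * ℓ) := by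
      calc w ≤ B * 4194304 * (2 * b + 19) := hwB
        _ ≤ B * 4194304 * (19 * (6 * ℓ)) := by
          apply mul_le_mul_of_nonneg_left _ (by positivity)
          linarith
        _ = _ := by ring
    have e1 : L * (1 / 2 ^ 30 / ℓ) = L / (2 ^ 30 * ℓ) := by
      field_simp
    rw [e1, div_le_iff₀ (by positivity)]
    have h4 : (4194304 : ℝ) * 114 ≤ Real.log 2 * 2 ^ 30 := by
      norm_num
      linarith
    calc L ≤ w := hlw
      _ ≤ B * (4194304 * 114 * ℓ) := h3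
      _ ≤ B * (Real.log 2 * 2 ^ 30 * ℓ) := by gcongr
      _ = _ := by ring
  · have h5 : (1 : ℝ) / 2 ^ 30 / ℓ ≤ 1 / 16 := by
      rw [div_div]
      apply one_div_le_one_div_of_le (by norm_num)
      norm_num
      linarith
    calc L * (1 / 2 ^ 30 / ℓ) ≤ L * (1 / 16) := by gcongr
      _ ≤ (w * Real.log 2) * (1 / 16) := by gcongr
      _ = (w / 16) * Real.log 2 := by ring

/-- The exponent in the final bound. -/
lemma exponent_bound (n w b : ℕ) (hw : 1000 ≤ w) (hnw : 2 ^ (w - 1) ≤ n) (hnw2 : n ≤ 2 ^ w)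
    (hbw : 2 ^ b ≤ w) (hwb : w ≤ 2 ^ (b + 22) * (2 * b + 19)) :
    0 < Real.log (Real.log n) ∧
    Real.log n * (1 / 2 ^ 30 / Real.log (Real.log n)) ≤ 2 ^ b * Real.log 2 ∧
    Real.log n * (1 / 2 ^ 30 / Real.log (Real.log n)) ≤ ((w / 16 + 1 : ℕ) : ℝ) * Real.log 2 := by
  obtain ⟨hl1, hl2⟩ := log_bounds n w hw hnw hnw2
  have hwr : (1000 : ℝ) ≤ w := by exact_mod_cast hw
  have hbwr : (2 : ℝ) ^ b ≤ w := by exact_mod_cast hbw
  have hwbr : (w : ℝ) ≤ 2 ^ b * 4194304 * (2 * b + 19) := by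
    have h1 : w ≤ 2 ^ b * 4194304 * (2 * b + 19) := by
      rw [pow_add] at hwb
      exact hwb
    exact_mod_cast h1
  obtain ⟨h1, h2, h3⟩ := expo_real hwr hl1 hl2 (Nat.cast_nonneg b) (pow_pos two_pos b)
    (by rw [Real.log_pow]) hbwr hwbr
  refine ⟨h1, h2, h3.trans ?_⟩
  apply mul_le_mul_of_nonneg_right _ (Real.log_nonneg (by norm_num))
  rw [div_le_iff₀ (by norm_num)]
  exact_mod_cast (by omega : w ≤ (w / 16 + 1) * 16)

lemma exp_nat_log_two (k : ℕ) : Real.exp ((k : ℝ) * Real.log 2) = 2 ^ k := by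
  rw [Real.exp_nat_mul, Real.exp_log (by norm_num)]

theorem omv_final_of (toric_family : ToricFamily) (program_of_gadget : ProgramOfGadget) :
    ∃ (c : ℝ) (_ : 0 < c) (n₀ : ℕ), ∀ n : ℕ, n₀ ≤ n →
    ∃ (S : ℕ) (P : List Instr) (out : ℕ → ℕ)
      (pre : Matrix (Fin n) (Fin n) (ZMod 2) →ₗ[ZMod 2]
        (Fin S → Word (Nat.clog 2 n) → Word (Nat.clog 2 n)))
      (base : Fin S → Word (Nat.clog 2 n) → Word (Nat.clog 2 n)),
      S ≤ n ^ 2 ∧
      (P.length : ℝ) ≤ (n : ℝ) ^ (2 - c / Real.log (Real.log n)) ∧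
      ∀ M, Computes P out (base + pre M) M := by
  obtain ⟨W, hW⟩ : ∃ W, W = 16 * Qt 4 := ⟨_, rfl⟩
  have hW1000 : 1000 ≤ W := by
    rw [hW]
    unfold Qt
    norm_num
  refine ⟨1 / 2 ^ 30, by positivity, 2 ^ W, fun n hn => ?_⟩
  have hwW : W ≤ Nat.clog 2 n := by
    have := Nat.clog_mono_right 2 hn
    rwa [Nat.clog_pow 2 _ (by norm_num)] at this
  have hn1 : 1 < n := by
    have h1 : W < 2 ^ W := Nat.lt_two_pow_self
    omega
  have hnw : 2 ^ (Nat.clog 2 n - 1) ≤ n := (Nat.pow_pred_clog_lt_self (by norm_num) hn1).le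
  have hnw2 : n ≤ 2 ^ Nat.clog 2 n := Nat.le_pow_clog (by norm_num) n
  obtain ⟨b, hbw, hwb, S, P, out, pre, base, hS, hP, hM⟩ :=
    omv_word toric_family program_of_gadget n (Nat.clog 2 n) (hW ▸ hwW) hnw
  have hw1000 : 1000 ≤ Nat.clog 2 n := hW1000.trans hwW
  clear hW hwW hW1000 hn
  refine ⟨S, P, out, pre, base, ?_, ?_, hM⟩
  all_goals
    clear hM
    generalize Nat.clog 2 n = w at *
    have hnr : (1 : ℝ) ≤ n := by exact_mod_cast hn1.le
    have hw16r : (16 : ℝ) ≤ w := by exact_mod_cast (by omega : 16 ≤ w)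
    have hD1 : (1 : ℝ) ≤ 2 ^ 2 ^ b := one_le_pow₀ (by norm_num)
    have h2w : 28 * 2 ^ (w / 16) * 2 ^ (w / 16) ≤ n := (pow_bound w hw1000).trans hnw
    have h2wr : 28 * (2 : ℝ) ^ (w / 16) * 2 ^ (w / 16) ≤ n := by exact_mod_cast h2w
    have hp1r : (1 : ℝ) ≤ 2 ^ (w / 16) := one_le_pow₀ (by norm_num)
  · have h3 : (S : ℝ) ≤ (n : ℝ) ^ 2 := fin_S (by linarith) hw16r hD1 hp1r h2wr hS
    exact_mod_cast h3
  · obtain ⟨hℓ0, he1, he2⟩ := exponent_bound n w b hw1000 hnw hnw2 hbw hwb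
    have hn0 : (0 : ℝ) < n := by linarith
    have hpow : (n : ℝ) ^ (2 - 1 / 2 ^ 30 / Real.log (Real.log n)) =
        n ^ 2 * Real.exp (-(Real.log n * (1 / 2 ^ 30 / Real.log (Real.log n)))) := by
      rw [sub_eq_add_neg, Real.rpow_add hn0, Real.rpow_two, Real.rpow_def_of_pos hn0, mul_neg]
    rw [hpow]
    refine fin_P hnr hw16r hD1 hp1r h2wr (Real.exp_pos _) ?_ ?_ hP
    · have h1 : (1 : ℝ) / 2 ^ 2 ^ b = Real.exp (-(2 ^ b * Real.log 2)) := by
        rw [Real.exp_neg, one_div]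
        congr 1
        have h5 := exp_nat_log_two (2 ^ b)
        push_cast at h5
        exact h5.symm
      rw [h1]
      exact Real.exp_le_exp.2 (by linarith)
    · have h4 := exp_nat_log_two (w / 16 + 1)
      rw [pow_succ] at h4
      rw [← h4, ← Real.exp_add]
      exact Real.one_le_exp (by linarith)

end Pool.Agent.OMV.Toric
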