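import Pool.Agent.Work.MP_0f1f76_lc.Toric.Basic

/-!
# Rows and exponent vectors
-/

namespace Pool.Agent.OMV.Toric

open Finset

theorem rowVal_lt {D h M : ℕ} (τ : Row D h M) (i : Fin M) (ω : Bool) :
    rowVal τ i ω < D * (2 * h + 1) := by
  have hk := (τ i).2.1.2
  have hj := (τ i).2.2.2
  have h0 := (τ i).1.1.2
  have h1 := (τ i).1.2.2
  have hm : (((τ i).2.1 : ℕ) + 1) % 2 ≤ 1 := by omega
  cases ω with
  | false =>
    simp only [rowVal, val1]
    calc D * (((τ i).2.1 : ℕ) + 1) + (τ i).1.1 < D * (((τ i).2.1 : ℕ) + 1) + D := by omega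
      _ = D * (((τ i).2.1 : ℕ) + 1 + 1) := by ring
      _ ≤ _ := Nat.mul_le_mul_left _ (by omega)
  | true =>
    simp only [rowVal, val1]
    calc D * (2 * ((τ i).2.2 : ℕ) + (((τ i).2.1 : ℕ) + 1) % 2 + 1) + (τ i).1.2
        < D * (2 * ((τ i).2.2 : ℕ) + (((τ i).2.1 : ℕ) + 1) % 2 + 1) + D := by omega
      _ = D * (2 * ((τ i).2.2 : ℕ) + (((τ i).2.1 : ℕ) + 1) % 2 + 1 + 1) := by ring
      _ ≤ _ := Nat.mul_le_mul_left _ (by omega)

theorem rowVal_ge {D h M : ℕ} (τ : Row D h M) (i : Fin M) (ω : Bool) :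
    D ≤ rowVal τ i ω := by
  cases ω with
  | false =>
    simp only [rowVal, val1]
    nlinarith
  | true =>
    simp only [rowVal, val1]
    nlinarith [Nat.zero_le (2 * ((τ i).2.2 : ℕ) + (((τ i).2.1 : ℕ) + 1) % 2)]

theorem mul_add_div' {D k ρ : ℕ} (hρ : ρ < D) : (D * k + ρ) / D = k := by
  rw [Nat.mul_add_div (by omega), Nat.div_eq_of_lt hρ, add_zero]

theorem mul_add_mod' {D k ρ : ℕ} (hρ : ρ < D) : (D * k + ρ) % D = ρ := by
  rw [Nat.mul_add_mod, Nat.mod_eq_of_lt hρ]

theorem rowVal_div_false {D h M : ℕ} (τ : Row D h M) (i : Fin M) :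
    rowVal τ i false / D = ((τ i).2.1 : ℕ) + 1 := by
  simp only [rowVal, val1]
  exact mul_add_div' (τ i).1.1.2

theorem rowVal_div_true {D h M : ℕ} (τ : Row D h M) (i : Fin M) :
    rowVal τ i true / D = 2 * ((τ i).2.2 : ℕ) + (((τ i).2.1 : ℕ) + 1) % 2 + 1 := by
  simp only [rowVal, val1]
  exact mul_add_div' (τ i).1.2.2

theorem rowVal_mod_false {D h M : ℕ} (τ : Row D h M) (i : Fin M) :
    rowVal τ i false % D = (τ i).1.1 := by
  simp only [rowVal, val1]
  exact mul_add_mod' (τ i).1.1.2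

theorem rowVal_mod_true {D h M : ℕ} (τ : Row D h M) (i : Fin M) :
    rowVal τ i true % D = (τ i).1.2 := by
  simp only [rowVal, val1]
  exact mul_add_mod' (τ i).1.2.2

theorem rowVal_parity {D h M : ℕ} (τ : Row D h M) (i : Fin M) :
    (rowVal τ i false / D + rowVal τ i true / D) % 2 = 1 := by
  rw [rowVal_div_false, rowVal_div_true]
  omega

theorem rowVal_injective {D h M : ℕ} :
    Function.Injective (rowVal : Row D h M → Fin M → Bool → ℕ) := by
  intro τ τ' hh
  funext i
  have h1 := rowVal_div_false τ i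
  have h2 := rowVal_div_true τ i
  have h3 := rowVal_mod_false τ i
  have h4 := rowVal_mod_true τ i
  rw [hh] at h1 h2 h3 h4
  rw [rowVal_div_false] at h1
  rw [rowVal_div_true] at h2
  rw [rowVal_mod_false] at h3
  rw [rowVal_mod_true] at h4
  refine Prod.ext (Prod.ext (Fin.ext h3.symm) (Fin.ext h4.symm))
    (Prod.ext (Fin.ext (by omega)) (Fin.ext ?_))
  have h5 : ((τ' i).2.1 : ℕ) = (τ i).2.1 := by omega
  rw [h5] at h2
  omega

/-- the exponent vector `τ - D u` attached to a row and a column -/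
def kap {D h M : ℕ} (τ : Row D h M) (σ β : Fin M → Bool) (i : Fin M) (ω : Bool) : ℕ :=
  rowVal τ i ω - D * uvec σ β i ω

theorem uvec_le_one {M : ℕ} (σ β : Fin M → Bool) (i : Fin M) (ω : Bool) :
    uvec σ β i ω ≤ 1 := by
  unfold uvec
  split_ifs <;> omega

theorem kap_add {D h M : ℕ} (τ : Row D h M) (σ β : Fin M → Bool) (i : Fin M) (ω : Bool) :
    kap τ σ β i ω + D * uvec σ β i ω = rowVal τ i ω := by
  unfold kap
  have h1 := rowVal_ge τ i ω
  have h2 : D * uvec σ β i ω ≤ D * 1 := Nat.mul_le_mul_left _ (uvec_le_one _ _ _ _)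
  omega

theorem kap_div {D h M : ℕ} (hD : 0 < D) (τ : Row D h M) (σ β : Fin M → Bool) (i : Fin M)
    (ω : Bool) : kap τ σ β i ω / D + uvec σ β i ω = rowVal τ i ω / D := by
  rw [← kap_add τ σ β i ω, Nat.add_mul_div_left _ _ hD]

theorem kap_mod {D h M : ℕ} (τ : Row D h M) (σ β : Fin M → Bool) (i : Fin M)
    (ω : Bool) : kap τ σ β i ω % D = rowVal τ i ω % D := by
  rw [← kap_add τ σ β i ω, Nat.add_mul_mod_self_left]

theorem uvec_add {M : ℕ} (σ β : Fin M → Bool) (i : Fin M) :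
    uvec σ β i false + uvec σ β i true = if β i = true then 1 else 0 := by
  unfold uvec
  cases β i <;> cases σ i <;> simp

/-- pure part: from `κ = τ - D u_{σ,β}` a pure shift `D u_{σ,β'}` leads to a row only if
`β' = β`, and then back to `τ` -/
theorem pure_shift {D h M : ℕ} (hD : 0 < D) (τ τ' : Row D h M) (σ β β' : Fin M → Bool)
    (hh : (fun i ω => kap τ σ β i ω + D * uvec σ β' i ω) = rowVal τ') : β' = β ∧ τ' = τ := by
  have hβ : β' = β := by
    funext i
    have e1 := congrFun (congrFun hh i) false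
    have e2 := congrFun (congrFun hh i) true
    have p1 := rowVal_parity τ i
    have p2 := rowVal_parity τ' i
    rw [← e1, ← e2, Nat.add_mul_div_left _ _ hD, Nat.add_mul_div_left _ _ hD] at p2
    rw [← kap_div hD τ σ β i false, ← kap_div hD τ σ β i true] at p1
    have u1 := uvec_add σ β i
    have u2 := uvec_add σ β' i
    cases hb : β i <;> cases hb' : β' i <;> simp only [hb, hb'] at u1 u2 ⊢
    · simp at u1 u2
      omega
    · simp at u1 u2
      omega
  refine ⟨hβ, rowVal_injective ?_⟩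
  rw [← hh, hβ]
  funext i ω
  exact kap_add τ σ β i ω

theorem kap_clean {D h M : ℕ} (hD : 0 < D) (τ : Row D h M) (σ β : Fin M → Bool) (i : Fin M)
    (hi : i ∈ cleanSet τ β) :
    (∀ ω, 16 * (kap τ σ β i ω % D) < D) ∧
      (kap τ σ β i false / D + kap τ σ β i true / D) % 2 = 0 := by
  unfold cleanSet at hi
  rw [mem_filter] at hi
  obtain ⟨_, hb, h0, h1⟩ := hi
  refine ⟨?_, ?_⟩
  · intro ω
    rw [kap_mod]
    cases ω with
    | false => rw [rowVal_mod_false]; exact h0
    | true => rw [rowVal_mod_true]; exact h1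
  · have p1 := rowVal_parity τ i
    rw [← kap_div hD τ σ β i false, ← kap_div hD τ σ β i true] at p1
    have u1 := uvec_add σ β i
    rw [if_pos hb] at u1
    omega

end Pool.Agent.OMV.Toric
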