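import Pool.Agent.Work.MP_0f1f76_lc.Toric.Basic

/-!
# Greedy selection
-/

namespace Pool.Agent.OMV.Toric

open Finset

/-- greedy selection: if every row average of `W` is at most `w`, then one can choose a sequence
such that the total weight of the `n`-th element against the earlier ones is at most `n w`. -/
theorem select {Ω : Type*} [Fintype Ω] [Nonempty Ω] (W : Ω → Ω → ℝ) (w : ℝ)
    (hW : ∀ x, ∑ y, W x y ≤ w * Fintype.card Ω) (C : ℕ) :
    ∃ f : ℕ → Ω, ∀ n < C, ∑ i ∈ range n, W (f i) (f n) ≤ n * w := by
  induction C with
  | zero => exact ⟨fun _ => Classical.arbitrary Ω, fun n hn => absurd hn (Nat.not_lt_zero n)⟩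
  | succ C ih =>
    obtain ⟨f, hf⟩ := ih
    have hsum : ∑ y : Ω, ∑ i ∈ range C, W (f i) y ≤ ∑ _y : Ω, (C : ℝ) * w := by
      rw [sum_comm, sum_const, card_univ, nsmul_eq_mul]
      calc ∑ i ∈ range C, ∑ y, W (f i) y ≤ ∑ _i ∈ range C, w * (Fintype.card Ω : ℝ) :=
            sum_le_sum fun i _ => hW (f i)
        _ = (Fintype.card Ω : ℝ) * (C * w) := by
            rw [sum_const, card_range, nsmul_eq_mul]; ring
    obtain ⟨y, -, hy⟩ := exists_le_of_sum_le univ_nonempty hsum
    refine ⟨Function.update f C y, fun n hn => ?_⟩
    rcases Nat.lt_succ_iff_lt_or_eq.mp hn with h | h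
    · have e : ∀ i ∈ range n, W (Function.update f C y i) (Function.update f C y n) =
          W (f i) (f n) := by
        intro i hi
        have hi' : i ≠ C := by have := mem_range.mp hi; omega
        have hn' : n ≠ C := by omega
        rw [Function.update_of_ne hi', Function.update_of_ne hn']
      rw [sum_congr rfl e]
      exact hf n h
    · subst h
      have e : ∀ i ∈ range n, W (Function.update f n y i) (Function.update f n y n) =
          W (f i) y := by
        intro i hi
        have hi' : i ≠ n := by have := mem_range.mp hi; omega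
        rw [Function.update_of_ne hi', Function.update_self]
      rw [sum_congr rfl e]
      exact hy

end Pool.Agent.OMV.Toric
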